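import Pool.Agent.TH206.Lech.Main

set_option autoImplicit false

namespace Pool.Agent.TH206.Lech

open Module Filter IsLocalRing

universe u v

section length

variable {k : Type v} [Field k] {R : Type u} [CommRing R] [Algebra k R]
variable [IsLocalRing R] {N : ℕ} {x : Fin N → R}

lemma Setting.length_eq (S : Setting k R x) {J : Ideal R} (hJ : Cof J) :
    (Module.length R (R ⧸ J)).toNat = cl k J := by
  have hfin := S.finite_of_cof hJ
  have hloc : IsLocalHom (algebraMap k R) := by infer_instance
  have h1 := IsLocalRing.length_restrictScalars k R (R ⧸ J)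
  have hs : Function.Surjective (algebraMap k (ResidueField R)) := by
    intro y
    obtain ⟨r, rfl⟩ := IsLocalRing.residue_surjective y
    obtain ⟨c, hc⟩ := S.resid r
    refine ⟨c, ?_⟩
    have h2 : residue R (r - algebraMap k R c) = 0 := (residue_eq_zero_iff _).mpr hc
    rw [map_sub, sub_eq_zero] at h2
    rw [h2]
    rfl
  have h3 : Module.length k (ResidueField R) = 1 := by
    have h4 := Module.length_eq_of_surjective (M := ResidueField R) hs
    rw [h4]
    exact Module.length_eq_one _ _
  have h5 : Module.length (ResidueField k) (ResidueField R) = 1 := by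
    have h4 : Module.length k (ResidueField R) =
        Module.length (ResidueField k) (ResidueField R) :=
      Module.length_eq_of_surjective (M := ResidueField R) (residue_surjective (R := k))
    rw [← h4, h3]
  rw [h5, mul_one, Module.length_eq_finrank] at h1
  rw [← h1]
  rfl

end length

section power

variable {k : Type} [Field k] {n : ℕ}

lemma mem_span_X (φ : MvPowerSeries (Fin n) k) (h : MvPowerSeries.constantCoeff φ = 0) :
    φ ∈ Ideal.span (Set.range (MvPowerSeries.X : Fin n → MvPowerSeries (Fin n) k)) := by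
  classical
  let P : (Fin n →₀ ℕ) → Fin n → Prop := fun m i => m i ≠ 0 ∧ ∀ j < i, m j = 0
  let ψ : Fin n → MvPowerSeries (Fin n) k := fun i m => if P m i then φ m else 0
  have hψ : ∀ i m, MvPowerSeries.coeff m (ψ i) = if P m i then MvPowerSeries.coeff m φ else 0 :=
    fun i m => rfl
  have h1 : φ = ∑ i, ψ i := by
    ext m
    rw [map_sum]
    simp only [hψ]
    by_cases hm : m = 0
    · subst hm
      have h2 : MvPowerSeries.coeff 0 φ = 0 := by
        rw [MvPowerSeries.coeff_zero_eq_constantCoeff_apply, h]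
      simp [h2]
    · have hex : ∃ i, m i ≠ 0 := by
        by_contra hcon
        push Not at hcon
        exact hm (Finsupp.ext hcon)
      obtain ⟨i, hi, hmin⟩ : ∃ i, m i ≠ 0 ∧ ∀ j < i, m j = 0 := by
        have hwf := (inferInstance : WellFoundedLT (Fin n)).wf
        refine ⟨hwf.min {i | m i ≠ 0} hex, hwf.min_mem {i | m i ≠ 0} hex, fun j hj => ?_⟩
        by_contra hcon
        exact hwf.not_lt_min {i | m i ≠ 0} hcon hj
      rw [Finset.sum_eq_single i]
      · rw [if_pos ⟨hi, hmin⟩]
      · intro j _ hj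
        refine if_neg ?_
        rintro ⟨h2, h3⟩
        rcases lt_or_gt_of_ne hj with h4 | h4
        · exact h2 (hmin j h4)
        · exact hi (h3 i h4)
      · intro h2
        exact absurd (Finset.mem_univ i) h2
  rw [h1]
  refine Ideal.sum_mem _ fun i _ => ?_
  have h2 : (MvPowerSeries.X i : MvPowerSeries (Fin n) k) ∣ ψ i := by
    rw [MvPowerSeries.X_dvd_iff]
    intro m hm
    rw [hψ, if_neg]
    rintro ⟨h3, _⟩
    exact h3 hm
  obtain ⟨g, hg⟩ := h2
  rw [hg]
  exact Ideal.mul_mem_right _ _ (Ideal.subset_span ⟨i, rfl⟩)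

lemma maximalIdeal_eq : maximalIdeal (MvPowerSeries (Fin n) k) =
    Ideal.span (Set.range (MvPowerSeries.X : Fin n → MvPowerSeries (Fin n) k)) := by
  apply le_antisymm
  · intro φ hφ
    apply mem_span_X
    rw [mem_maximalIdeal, mem_nonunits_iff, MvPowerSeries.isUnit_iff_constantCoeff,
      isUnit_iff_ne_zero, not_not] at hφ
    exact hφ
  · rw [Ideal.span_le]
    rintro _ ⟨i, rfl⟩
    change _ ∈ maximalIdeal _
    rw [mem_maximalIdeal, mem_nonunits_iff, MvPowerSeries.isUnit_iff_constantCoeff,
      MvPowerSeries.constantCoeff_X]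
    exact not_isUnit_zero

lemma setting_power : Setting k (MvPowerSeries (Fin n) k)
    (MvPowerSeries.X : Fin n → MvPowerSeries (Fin n) k) := by
  refine ⟨maximalIdeal_eq, fun r => ⟨MvPowerSeries.constantCoeff r, ?_⟩⟩
  rw [mem_maximalIdeal, mem_nonunits_iff, MvPowerSeries.isUnit_iff_constantCoeff, map_sub]
  rw [MvPowerSeries.algebraMap_apply]
  simp

/-- the restriction to a line -/
lemma exists_line (v : Fin n → k) : ∃ θ : MvPowerSeries (Fin n) k →ₐ[k] PowerSeries k,
    ∀ i, θ (MvPowerSeries.X i) = v i • PowerSeries.X := by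
  have ha : MvPowerSeries.HasSubst (fun i : Fin n => (v i • PowerSeries.X : PowerSeries k)) := by
    apply MvPowerSeries.hasSubst_of_constantCoeff_zero
    intro i
    change MvPowerSeries.constantCoeff (v i • (MvPowerSeries.X () : MvPowerSeries Unit k)) = 0
    rw [MvPowerSeries.constantCoeff_smul, MvPowerSeries.constantCoeff_X, smul_zero]
  refine ⟨MvPowerSeries.substAlgHom ha, fun i => ?_⟩
  rw [MvPowerSeries.substAlgHom_X]

lemma E1_one_ge (hn : 1 ≤ n) {I : Ideal (MvPowerSeries (Fin n) k)} (hI : Cof I) (hne : I ≠ ⊤) :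
    1 ≤ E1 k I (Submodule.span k (Set.range
      (MvPowerSeries.X : Fin n → MvPowerSeries (Fin n) k))) n 1 := by
  classical
  refine le_ciInf fun r => ?_
  have hr : (0 : ℝ) < ((r + 1 : ℕ) : ℝ) := by positivity
  rw [add_zero, pow_one, one_le_div hr, Nat.cast_le]
  by_contra hcon
  push Not at hcon
  have S := setting_power (k := k) (n := n)
  have hset := m3set_nonempty S (hI.pow (r + 1)) ((cof_top (R := MvPowerSeries (Fin n) k)).pow
    (r + 1)) (a := 1) (b := 0) (c := n - 1 - 0) (by omega)
  obtain ⟨f, g, h, hf, hg, hh, hc, hcl⟩ := m3_spec hset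
  have hle : J3 f g h ≤ Ideal.span (Set.range h) ⊔
      maximalIdeal (MvPowerSeries (Fin n) k) ^ (r + 1) := by
    unfold J3
    refine sup_le (sup_le ?_ ?_) le_sup_left
    · rw [Ideal.span_le]
      rintro _ ⟨i, rfl⟩
      exact Ideal.mem_sup_right (Ideal.pow_right_mono (le_maximalIdeal hne) _ (hf i))
    · rw [Ideal.span_le]
      rintro _ ⟨i, rfl⟩
      exact i.elim0
  have hfin := S.finite_of_cof hc
  have h1 : cl k (Ideal.span (Set.range h) ⊔
      maximalIdeal (MvPowerSeries (Fin n) k) ^ (r + 1)) < r + 1 := by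
    refine lt_of_le_of_lt (cl_anti hle) ?_
    rw [hcl]
    exact hcon
  have h2 := S.le_of_cl_lt h1
  have h3 : ∀ j, ∃ c : Fin n → k, ∑ i, c i • (MvPowerSeries.X i : MvPowerSeries (Fin n) k) = h j :=
    fun j => (Submodule.mem_span_range_iff_exists_fun k).mp (hh j)
  choose C hC using h3
  let L : (Fin n → k) →ₗ[k] (Fin (n - 1 - 0) → k) := Matrix.toLin' (Matrix.of C)
  have hker : LinearMap.ker L ≠ ⊥ := by
    apply LinearMap.ker_ne_bot_of_finrank_lt
    simp only [Module.finrank_fin_fun]
    omega
  obtain ⟨v, hv, hv0⟩ := (Submodule.ne_bot_iff _).mp hker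
  obtain ⟨θ, hθ⟩ := exists_line v
  have hθh : ∀ j, θ (h j) = 0 := by
    intro j
    have h4 : ∑ i, C j i * v i = 0 := by
      have := congrFun (LinearMap.mem_ker.mp hv) j
      simpa [L, Matrix.toLin'_apply, Matrix.mulVec, dotProduct] using this
    rw [← hC j, map_sum]
    simp only [map_smul, hθ, smul_smul]
    rw [← Finset.sum_smul, h4, zero_smul]
  obtain ⟨i, hi⟩ : ∃ i, v i ≠ 0 := by
    by_contra hcon2
    push Not at hcon2
    exact hv0 (funext hcon2)
  have h5 : (MvPowerSeries.X i : MvPowerSeries (Fin n) k) ^ (r + 1) ∈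
      Ideal.span (Set.range h) := by
    apply h2
    apply Ideal.pow_mem_pow
    rw [maximalIdeal_eq]
    exact Ideal.subset_span ⟨i, rfl⟩
  have h6 : Ideal.span (Set.range h) ≤ RingHom.ker θ := by
    rw [Ideal.span_le]
    rintro _ ⟨j, rfl⟩
    exact hθh j
  have h7 : θ ((MvPowerSeries.X i : MvPowerSeries (Fin n) k) ^ (r + 1)) = 0 := h6 h5
  rw [map_pow, hθ, smul_pow] at h7
  rcases smul_eq_zero.mp h7 with h8 | h8
  · exact hi (pow_eq_zero_iff (Nat.succ_ne_zero r) |>.mp h8)
  · exact PowerSeries.X_ne_zero (pow_eq_zero_iff (Nat.succ_ne_zero r) |>.mp h8)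

end power

end Pool.Agent.TH206.Lech
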