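import Pool.Agent.TH206.Lech.Power

set_option autoImplicit false

namespace Pool.Agent.TH206.Lech

open Module Filter IsLocalRing

universe u v

section hilb

variable {k : Type v} [Field k] {R : Type u} [CommRing R] [Algebra k R]
variable [IsLocalRing R] {N : ℕ} {x : Fin N → R}

/-- bound for the Hilbert function of `I` modulo `Q` by the colength of `Q + (f)`, `f i ∈ I ^ r` -/
lemma hilb_le (S : Setting k R x) {I : Ideal R} (hI : Cof I) (r : ℕ) :
    ∀ (a : ℕ) (f : Fin a → R) (Q : Ideal R), (∀ i, f i ∈ I ^ r) →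
      Cof (Q ⊔ Ideal.span (Set.range f)) → ∀ s : ℕ,
      cl k (I ^ (r * s) ⊔ Q) ≤ (s + a - 1).choose a * cl k (Q ⊔ Ideal.span (Set.range f)) := by
  intro a
  induction a with
  | zero =>
    intro f Q _ hQ s
    have h1 : Q ⊔ Ideal.span (Set.range f) = Q := by
      rw [Set.range_eq_empty, Ideal.span_empty, sup_bot_eq]
    rw [h1] at hQ ⊢
    have := S.finite_of_cof hQ
    rw [Nat.choose_zero_right, one_mul]
    exact cl_anti le_sup_right
  | succ a ih =>
    intro f Q hf hQ s
    obtain ⟨u, f, rfl⟩ : ∃ u g₀, f = Fin.cons u g₀ :=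
      ⟨f 0, Fin.tail f, (Fin.cons_self_tail f).symm⟩
    have hu : u ∈ I ^ r := by simpa using hf 0
    have hf' : ∀ i, f i ∈ I ^ r := fun i => by simpa using hf i.succ
    rw [span_cons, ← sup_assoc] at hQ ⊢
    induction s with
    | zero =>
      rw [mul_zero, pow_zero, Ideal.one_eq_top, top_sup_eq, cl_top]
      exact Nat.zero_le _
    | succ s ihs =>
      have hc : Cof (I ^ (r * (s + 1)) ⊔ Q) := (hI.pow _).mono le_sup_left
      have := S.finite_of_cof hc
      have h1 := cl_add (k := k) (I ^ (r * (s + 1)) ⊔ Q) u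
      have h2 := ih f (Q ⊔ Ideal.span {u}) hf' hQ (s + 1)
      rw [← sup_assoc] at h2
      have h3 : I ^ (r * s) ⊔ Q ≤ col (I ^ (r * (s + 1)) ⊔ Q) u := by
        refine sup_le ?_ (le_sup_right.trans (le_col _ _))
        intro y hy
        rw [mem_col]
        refine Ideal.mem_sup_left ?_
        have h4 : r * (s + 1) = r + r * s := by ring
        rw [h4, pow_add]
        exact Ideal.mul_mem_mul hu hy
      have hfin2 : Module.Finite k (R ⧸ (I ^ (r * s) ⊔ Q)) :=
        S.finite_of_cof ((hI.pow _).mono le_sup_left)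
      have h4 := cl_anti (k := k) h3
      have e1 : s + 1 + a - 1 = s + a := by omega
      have e2 : s + (a + 1) - 1 = s + a := by omega
      have e3 : s + 1 + (a + 1) - 1 = s + a + 1 := by omega
      rw [e1] at h2
      rw [e2] at ihs
      rw [e3, Nat.choose_succ_succ, Nat.succ_eq_add_one, add_mul]
      omega

/-- the resulting bound on the multiplicity -/
lemma limit_le (S : Setting k R x) {I : Ideal R} (hI : Cof I) (r : ℕ) (hr : 1 ≤ r) (a : ℕ)
    (f : Fin a → R) (Q : Ideal R) (hf : ∀ i, f i ∈ I ^ r)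
    (hQ : Cof (Q ⊔ Ideal.span (Set.range f))) (e : ℝ)
    (he : Tendsto (fun n : ℕ => (a.factorial : ℝ) * (cl k (I ^ n ⊔ Q) : ℝ) / (n : ℝ) ^ a) atTop
      (nhds e)) :
    e ≤ (cl k (Q ⊔ Ideal.span (Set.range f)) : ℝ) / (r : ℝ) ^ a := by
  set δ : ℝ := (cl k (Q ⊔ Ideal.span (Set.range f)) : ℝ) with hδ
  have hr' : (0 : ℝ) < r := by exact_mod_cast hr
  have hsub : Tendsto (fun s : ℕ => r * (s + 1)) atTop atTop := by
    refine tendsto_atTop_mono (f := fun s : ℕ => s) (fun s => ?_) tendsto_id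
    nlinarith
  have h1 := he.comp hsub
  have h2 : ∀ s : ℕ, (a.factorial : ℝ) * (cl k (I ^ (r * (s + 1)) ⊔ Q) : ℝ) /
      ((r * (s + 1) : ℕ) : ℝ) ^ a ≤ (1 + a * (1 / ((s : ℝ) + 1))) ^ a * (δ / (r : ℝ) ^ a) := by
    intro s
    have h3 := hilb_le S hI r a f Q hf hQ (s + 1)
    have h4 : ((s + 1 + a - 1).choose a : ℝ) * (a.factorial : ℝ) ≤ ((s : ℝ) + 1 + a) ^ a := by
      have h5 : (s + 1 + a - 1).descFactorial a ≤ (s + 1 + a - 1) ^ a :=
        Nat.descFactorial_le_pow _ _
      rw [Nat.descFactorial_eq_factorial_mul_choose] at h5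
      have h6 : (s + 1 + a - 1) ^ a ≤ (s + 1 + a) ^ a := Nat.pow_le_pow_left (by omega) a
      have h7 : (s + 1 + a - 1).choose a * a.factorial ≤ (s + 1 + a) ^ a := by
        rw [mul_comm]; exact h5.trans h6
      exact_mod_cast h7
    have hs : (0 : ℝ) < (s : ℝ) + 1 := by positivity
    have h5 : (1 + a * (1 / ((s : ℝ) + 1))) ^ a * (δ / (r : ℝ) ^ a) =
        ((s : ℝ) + 1 + a) ^ a * δ / (((r * (s + 1) : ℕ) : ℝ) ^ a) := by
      have e1 : (1 + a * (1 / ((s : ℝ) + 1))) = ((s : ℝ) + 1 + a) / ((s : ℝ) + 1) := by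
        field_simp
      rw [e1, div_pow]
      push_cast
      rw [mul_pow, div_mul_div_comm]
      congr 1
      ring
    rw [h5]
    refine div_le_div_of_nonneg_right ?_ (by positivity)
    have h6 : (cl k (I ^ (r * (s + 1)) ⊔ Q) : ℝ) ≤ ((s + 1 + a - 1).choose a : ℝ) * δ := by
      rw [hδ]; exact_mod_cast h3
    have hδ0 : 0 ≤ δ := by positivity
    calc (a.factorial : ℝ) * (cl k (I ^ (r * (s + 1)) ⊔ Q) : ℝ) ≤
        (a.factorial : ℝ) * (((s + 1 + a - 1).choose a : ℝ) * δ) :=
          mul_le_mul_of_nonneg_left h6 (Nat.cast_nonneg _)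
      _ = (((s + 1 + a - 1).choose a : ℝ) * (a.factorial : ℝ)) * δ := by ring
      _ ≤ ((s : ℝ) + 1 + a) ^ a * δ := mul_le_mul_of_nonneg_right h4 hδ0
  have hlim : Tendsto (fun s : ℕ => (1 + a * (1 / ((s : ℝ) + 1))) ^ a * (δ / (r : ℝ) ^ a)) atTop
      (nhds ((1 + a * 0) ^ a * (δ / (r : ℝ) ^ a))) := by
    refine Tendsto.mul_const _ (Tendsto.pow ?_ a)
    refine Tendsto.const_add 1 (Tendsto.const_mul (a : ℝ) ?_)
    exact tendsto_one_div_add_atTop_nhds_zero_nat
  rw [mul_zero, add_zero, one_pow, one_mul] at hlim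
  exact le_of_tendsto_of_tendsto' h1 hlim h2

end hilb

section generic

variable {k : Type v} [Field k] {R : Type u} [CommRing R] [Algebra k R]
variable [IsLocalRing R] {d : ℕ} {x : Fin (d + 1) → R}

/-- the ideal of the first `i` linear forms -/
def linIdeal (x : Fin (d + 1) → R) (c : Fin d → Fin (d + 1) → k) (i : ℕ) : Ideal R :=
  Ideal.span {f : R | ∃ j : Fin d, j.val < i ∧ f = ∑ t : Fin (d + 1), c j t • x t}

lemma generic (S : Setting k R x) (A B : Ideal R) (a i : ℕ) (hi : i < d)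
    (hne : (m3set k A B (Submodule.span k (Set.range x)) a 0 i).Nonempty) :
    ∃ P : MvPolynomial (Fin d × Fin (d + 1)) k, P ≠ 0 ∧ ∃ f : Fin a → R, (∀ j, f j ∈ A) ∧
      ∀ c : Fin d → Fin (d + 1) → k, MvPolynomial.eval (fun p => c p.1 p.2) P ≠ 0 →
        Cof (linIdeal x c i ⊔ Ideal.span (Set.range f)) ∧
        cl k (linIdeal x c i ⊔ Ideal.span (Set.range f)) ≤
          m3 k A B (Submodule.span k (Set.range x)) a 0 i := by
  classical
  obtain ⟨f, g, h, hf, hg, hh, hc, hcl⟩ := m3_spec hne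
  have h3 : ∀ j, ∃ c : Fin (d + 1) → k, ∑ t, c t • x t = h j :=
    fun j => (Submodule.mem_span_range_iff_exists_fun k).mp (hh j)
  choose C hC using h3
  have hJ : J3 f g h = Ideal.span (Set.range (Sum.elim f h)) := by
    unfold J3
    rw [Set.Sum.elim_range, Ideal.span_union]
    congr 1
    rw [Set.range_eq_empty g, Ideal.span_empty, sup_bot_eq]
  rw [hJ] at hc hcl
  let e : (Fin d × Fin (d + 1)) → (Fin a ⊕ Fin i) → R := fun s =>
    Sum.elim (fun _ => 0) (fun j => if (s.1 : ℕ) = j then x s.2 else 0)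
  obtain ⟨P, hP0, hP⟩ := S.semi (Sum.elim f h) e hc
  let cs : Fin d × Fin (d + 1) → k := fun s => if hs : (s.1 : ℕ) < i then C ⟨s.1, hs⟩ s.2 else 0
  let P' : MvPolynomial (Fin d × Fin (d + 1)) k :=
    MvPolynomial.aeval (fun s => MvPolynomial.X s - MvPolynomial.C (cs s)) P
  have hev : ∀ c : Fin d × Fin (d + 1) → k, MvPolynomial.eval c P' =
      MvPolynomial.eval (fun s => c s - cs s) P := by
    intro c
    have h1 : (MvPolynomial.eval c).comp (MvPolynomial.aeval (R := k)
        (fun s => MvPolynomial.X s - MvPolynomial.C (cs s))).toRingHom =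
        MvPolynomial.eval (fun s => c s - cs s) := by
      apply MvPolynomial.ringHom_ext
      · intro r; simp
      · intro i; simp
    exact RingHom.congr_fun h1 P
  refine ⟨P', ?_, f, hf, ?_⟩
  · intro h0
    apply hP0
    have h1 := hev cs
    rw [h0, map_zero] at h1
    simp only [sub_self] at h1
    exact h1.symm
  · intro c hc'
    rw [hev] at hc'
    have h1 := hP _ hc'
    have h2 : (fun i' => (Sum.elim f h : Fin a ⊕ Fin i → R) i' +
        ∑ s : Fin d × Fin (d + 1), (c s.1 s.2 - cs s) • e s i') =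
        Sum.elim f (fun j : Fin i => ∑ t, c ⟨j, by omega⟩ t • x t) := by
      funext i'
      rcases i' with i' | j
      · simp [e]
      · simp only [Sum.elim_inr, e]
        rw [Fintype.sum_prod_type, Finset.sum_eq_single (⟨j, by omega⟩ : Fin d)]
        · rw [← hC j, ← Finset.sum_add_distrib]
          refine Finset.sum_congr rfl fun t _ => ?_
          have h4 : cs (⟨j, by omega⟩, t) = C j t := by
            simp [cs]
          rw [if_pos rfl, h4, ← add_smul]
          congr 1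
          ring
        · intro j' _ hj'
          refine Finset.sum_eq_zero fun t _ => ?_
          rw [if_neg, smul_zero]
          intro h5
          apply hj'
          exact Fin.ext h5
        · intro h5
          exact absurd (Finset.mem_univ _) h5
    rw [h2] at h1
    have h5 : Ideal.span (Set.range (Sum.elim f (fun j : Fin i => ∑ t, c ⟨j, by omega⟩ t • x t))) =
        linIdeal x c i ⊔ Ideal.span (Set.range f) := by
      rw [Set.Sum.elim_range, Ideal.span_union, sup_comm]
      congr 2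
      ext y
      constructor
      · rintro ⟨j, rfl⟩
        exact ⟨⟨j, by omega⟩, j.2, rfl⟩
      · rintro ⟨j, hj, rfl⟩
        exact ⟨⟨j, hj⟩, rfl⟩
    rw [h5, hcl] at h1
    exact h1

end generic

lemma coeff_one_ge (n : ℕ) : 1 ≤ (ascPochhammer ℕ (n + 1)).coeff 1 := by
  induction n with
  | zero => simp [ascPochhammer_one]
  | succ n ih =>
    rw [ascPochhammer_succ_right, mul_add, Polynomial.coeff_add, mul_comm _ (((n + 1 : ℕ) : Polynomial ℕ)),
      Polynomial.coeff_natCast_mul]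
    have : 1 * 1 ≤ (n + 1) * (ascPochhammer ℕ (n + 1)).coeff 1 := Nat.mul_le_mul (by omega) ih
    push_cast at *
    omega

lemma coeff_zero_eq (n : ℕ) : (ascPochhammer ℕ (n + 1)).coeff 0 = 0 := by
  rw [ascPochhammer_succ_left, Polynomial.coeff_X_mul_zero]

lemma sum_fin_eq (d : ℕ) (g : ℕ → ℝ) : ∑ i : Fin d, g (d + 1 - i.val) =
    ∑ j ∈ Finset.range d, g (j + 2) := by
  rw [Fin.sum_univ_eq_sum_range (fun i => g (d + 1 - i)),
    ← Finset.sum_range_reflect (fun j => g (j + 2))]
  refine Finset.sum_congr rfl fun i hi => ?_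
  have := Finset.mem_range.mp hi
  congr 1
  omega

theorem final (k : Type) [Field k] [Infinite k] (d : ℕ) (I : Ideal (MvPowerSeries (Fin (d + 1)) k))
    (hI : Cof I) (hne : I ≠ ⊤) :
    ∃ P : MvPolynomial (Fin d × Fin (d + 1)) k, P ≠ 0 ∧
      ∀ c : Fin d → Fin (d + 1) → k, MvPolynomial.eval (fun p => c p.1 p.2) P ≠ 0 →
        ∀ e : Fin d → ℝ,
          (∀ i : Fin d, Tendsto (fun n : ℕ => ((d + 1 - i.val).factorial : ℝ) *
            (cl k (I ^ n ⊔ linIdeal MvPowerSeries.X c i.val) : ℝ) / (n : ℝ) ^ (d + 1 - i.val))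
            atTop (nhds (e i))) →
          ∑ i : Fin d, ((ascPochhammer ℕ (d + 1)).coeff (d + 1 - i.val) : ℝ) * e i ≤
            ((d + 1).factorial : ℝ) * (cl k I : ℝ) := by
  classical
  have S := setting_power (k := k) (n := d + 1)
  set V := Submodule.span k (Set.range
    (MvPowerSeries.X : Fin (d + 1) → MvPowerSeries (Fin (d + 1)) k)) with hV
  set s : ℕ → ℝ := fun a => ((ascPochhammer ℕ (d + 1)).coeff a : ℝ) with hs
  have hs0 : ∀ a, 0 ≤ s a := fun a => Nat.cast_nonneg _
  have hmain := main_aux k (d + 1) _ _ S _ I hI hne rfl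
  rw [← hV] at hmain
  rw [Finset.sum_range_succ', Finset.sum_range_succ'] at hmain
  simp only [zero_add, coeff_zero_eq, Nat.cast_zero, zero_mul, add_zero] at hmain
  have hone : 1 ≤ s 1 * E1 k I V (d + 1) 1 := by
    have h1 : 1 ≤ s 1 := by
      have h3 : (1 : ℝ) ≤ ((ascPochhammer ℕ (d + 1)).coeff 1 : ℝ) := by
        exact_mod_cast coeff_one_ge d
      exact h3
    have h2 := E1_one_ge (by omega) hI hne
    nlinarith
  set T : ℝ := ∑ i : Fin d, s (d + 1 - i.val) with hT
  have hT0 : 0 ≤ T := Finset.sum_nonneg fun i _ => hs0 _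
  have hε : 0 < 1 / (T + 1) := by positivity
  have happ := fun i : Fin d => E2_approx S hI (cof_top (R := MvPowerSeries (Fin (d + 1)) k))
    (d + 1 - i.val) 0 (by omega) (1 / (T + 1)) hε
  choose r hr1 hr using happ
  let r₀ := ∏ i, r i
  have hr0 : 1 ≤ r₀ := Nat.one_le_iff_ne_zero.mpr
    (Finset.prod_ne_zero_iff.mpr fun i _ => by have := hr1 i; omega)
  have hbound : ∀ i : Fin d, (m3 k (I ^ r₀) ((⊤ : Ideal (MvPowerSeries (Fin (d + 1)) k)) ^ r₀) V
      (d + 1 - i.val) 0 i.val : ℝ) / (r₀ : ℝ) ^ (d + 1 - i.val) <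
      E1 k I V (d + 1) (d + 1 - i.val) + 1 / (T + 1) := by
    intro i
    have h1 : r₀ = r i * ∏ j ∈ Finset.univ.erase i, r j :=
      (Finset.mul_prod_erase _ _ (Finset.mem_univ i)).symm
    have h2 := hr i (∏ j ∈ Finset.univ.erase i, r j) (Nat.one_le_iff_ne_zero.mpr
      (Finset.prod_ne_zero_iff.mpr fun j _ => by have := hr1 j; omega))
    rw [← h1] at h2
    have h3 : d + 1 - (d + 1 - i.val) - 0 = i.val := by omega
    rw [h3, add_zero] at h2
    exact h2
  have hgen := fun i : Fin d => generic S (I ^ r₀)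
    ((⊤ : Ideal (MvPowerSeries (Fin (d + 1)) k)) ^ r₀) (d + 1 - i.val) i.val i.2
    (m3set_nonempty S (hI.pow r₀) (cof_top.pow r₀) (by omega))
  choose P hP0 f hf hP using hgen
  refine ⟨∏ i, P i, Finset.prod_ne_zero_iff.mpr fun i _ => hP0 i, ?_⟩
  intro c hc e he
  rw [map_prod, Finset.prod_ne_zero_iff] at hc
  have hle : ∀ i : Fin d, e i ≤ E1 k I V (d + 1) (d + 1 - i.val) + 1 / (T + 1) := by
    intro i
    obtain ⟨h1, h2⟩ := hP i c (hc i (Finset.mem_univ i))
    have h3 := limit_le S hI r₀ hr0 (d + 1 - i.val) (f i) (linIdeal MvPowerSeries.X c i.val)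
      (hf i) h1 (e i) (he i)
    refine h3.trans (le_trans ?_ (hbound i).le)
    refine div_le_div_of_nonneg_right ?_ (by positivity)
    exact_mod_cast h2
  have hsum : ∑ i : Fin d, s (d + 1 - i.val) * e i ≤
      ∑ i : Fin d, s (d + 1 - i.val) * E1 k I V (d + 1) (d + 1 - i.val) + T * (1 / (T + 1)) := by
    rw [hT, Finset.sum_mul, ← Finset.sum_add_distrib]
    refine Finset.sum_le_sum fun i _ => ?_
    rw [← mul_add]
    exact mul_le_mul_of_nonneg_left (hle i) (hs0 _)
  have hT1 : T * (1 / (T + 1)) ≤ 1 := by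
    rw [mul_one_div, div_le_one (by positivity)]
    linarith
  have h4 := sum_fin_eq d (fun a => s a * E1 k I V (d + 1) a)
  rw [h4] at hsum
  refine hsum.trans ?_
  have h5 : ∑ j ∈ Finset.range d, s (j + 2) * E1 k I V (d + 1) (j + 2) +
      s 1 * E1 k I V (d + 1) 1 ≤ ((d + 1).factorial : ℝ) * (cl k I : ℝ) := hmain
  linarith

end Pool.Agent.TH206.Lech
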