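import Mathlib

set_option autoImplicit false

namespace Pool.Agent.TH206.Lech

open Module

universe u v

variable (k : Type v) [Field k] {R : Type u} [CommRing R] [Algebra k R]

/-- the `k`-dimension of `R ⧸ J` -/
noncomputable def cl (J : Ideal R) : ℕ := finrank k (R ⧸ J)

variable {k}

/-- surjection of quotients as a `k`-linear map -/
lemma cl_anti {J J' : Ideal R} (h : J ≤ J') [Module.Finite k (R ⧸ J)] : cl k J' ≤ cl k J := by
  let f : (R ⧸ J) →ₐ[k] (R ⧸ J') := Ideal.Quotient.factorₐ k h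
  have hf : Function.Surjective f := Ideal.Quotient.factor_surjective h
  exact LinearMap.finrank_le_finrank_of_surjective (f := f.toLinearMap) hf

lemma finite_anti {J J' : Ideal R} (h : J ≤ J') [Module.Finite k (R ⧸ J)] :
    Module.Finite k (R ⧸ J') := by
  let f : (R ⧸ J) →ₐ[k] (R ⧸ J') := Ideal.Quotient.factorₐ k h
  have hf : Function.Surjective f := Ideal.Quotient.factor_surjective h
  exact Module.Finite.of_surjective f.toLinearMap hf

/-- the colon ideal `(J : f)` -/
def col (J : Ideal R) (f : R) : Ideal R := Submodule.comap (LinearMap.mulLeft R f) J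

lemma mem_col {J : Ideal R} {f x : R} : x ∈ col J f ↔ f * x ∈ J := Iff.rfl

lemma le_col (J : Ideal R) (f : R) : J ≤ col J f := fun _ hx => J.mul_mem_left _ hx

/-- `dim R/J = dim R/(J + f) + dim R/(J : f)` -/
lemma cl_add (J : Ideal R) (f : R) [Module.Finite k (R ⧸ J)] :
    cl k J = cl k (J ⊔ Ideal.span {f}) + cl k (col J f) := by
  let ψ : R →ₗ[k] (R ⧸ J) := (Ideal.Quotient.mkₐ k J).toLinearMap ∘ₗ LinearMap.mulLeft k f
  have hker : LinearMap.ker ψ = (col J f).restrictScalars k := by
    ext x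
    simp only [LinearMap.mem_ker, Submodule.restrictScalars_mem, mem_col]
    change Ideal.Quotient.mk J (f * x) = 0 ↔ _
    rw [Ideal.Quotient.eq_zero_iff_mem]
  have e1 : (R ⧸ col J f) ≃ₗ[k] LinearMap.range ψ :=
    ((Submodule.Quotient.restrictScalarsEquiv k (col J f)).symm.trans
      (Submodule.quotEquivOfEq _ _ hker.symm)).trans (LinearMap.quotKerEquivRange ψ)
  have h1 : finrank k (LinearMap.range ψ) = cl k (col J f) := (LinearEquiv.finrank_eq e1).symm
  have hr : LinearMap.range ψ =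
      ((Ideal.span {f}).map (Ideal.Quotient.mkₐ k J)).restrictScalars k := by
    ext y
    simp only [LinearMap.mem_range, Submodule.restrictScalars_mem]
    rw [Ideal.mem_map_iff_of_surjective _ (Ideal.Quotient.mkₐ_surjective k J)]
    constructor
    · rintro ⟨x, rfl⟩
      exact ⟨f * x, Ideal.mul_mem_right _ _ (Ideal.subset_span rfl), rfl⟩
    · rintro ⟨z, hz, rfl⟩
      obtain ⟨x, rfl⟩ := Ideal.mem_span_singleton'.mp hz
      exact ⟨x, by change Ideal.Quotient.mk J (f * x) = Ideal.Quotient.mk J (x * f); rw [mul_comm]⟩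
  have e2 : ((R ⧸ J) ⧸ LinearMap.range ψ) ≃ₗ[k] (R ⧸ (J ⊔ Ideal.span {f})) := by
    rw [hr]
    exact (DoubleQuot.quotQuotEquivQuotSupₐ k J (Ideal.span {f})).toLinearEquiv
  have h2 := Submodule.finrank_quotient_add_finrank (LinearMap.range ψ)
  rw [h1, LinearEquiv.finrank_eq e2] at h2
  exact h2.symm

lemma eq_of_cl_eq {J J' : Ideal R} (h : J ≤ J') [Module.Finite k (R ⧸ J)]
    (he : cl k J = cl k J') : J = J' := by
  let f : (R ⧸ J) →ₐ[k] (R ⧸ J') := Ideal.Quotient.factorₐ k h
  have hf : Function.Surjective f.toLinearMap := Ideal.Quotient.factor_surjective h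
  have : Module.Finite k (R ⧸ J') := finite_anti h
  have hi : Function.Injective f.toLinearMap :=
    (LinearMap.injective_iff_surjective_of_finrank_eq_finrank he).mpr hf
  refine le_antisymm h fun y hy => ?_
  have h1 : f.toLinearMap (Ideal.Quotient.mk J y) = 0 := by
    change Ideal.Quotient.mk J' y = 0
    exact Ideal.Quotient.eq_zero_iff_mem.mpr hy
  have h2 : Ideal.Quotient.mk J y = 0 := hi (by rw [h1, map_zero])
  exact Ideal.Quotient.eq_zero_iff_mem.mp h2

lemma cl_top : cl k (⊤ : Ideal R) = 0 := by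
  unfold cl
  have : Subsingleton (R ⧸ (⊤ : Ideal R)) := Ideal.Quotient.subsingleton_iff.mpr rfl
  exact finrank_zero_of_subsingleton

lemma cl_pos {J : Ideal R} (h : J ≠ ⊤) [Module.Finite k (R ⧸ J)] : 0 < cl k J := by
  have : Nontrivial (R ⧸ J) := Ideal.Quotient.nontrivial_iff.mpr h
  exact finrank_pos

/-- subadditivity -/
lemma cl_mul_le (J : Ideal R) (f g : R) [Module.Finite k (R ⧸ (J ⊔ Ideal.span {f * g}))] :
    cl k (J ⊔ Ideal.span {f * g}) ≤ cl k (J ⊔ Ideal.span {f}) + cl k (J ⊔ Ideal.span {g}) := by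
  have hle : Ideal.span {f * g} ≤ Ideal.span {f} := by
    rw [Ideal.span_singleton_le_span_singleton]
    exact Dvd.intro _ rfl
  have h1 : J ⊔ Ideal.span {f * g} ⊔ Ideal.span {f} = J ⊔ Ideal.span {f} := by
    rw [sup_assoc, sup_eq_right.mpr hle]
  rw [cl_add _ f, h1]
  have h2 : J ⊔ Ideal.span {f * g} ≤ J ⊔ Ideal.span {g} := by
    apply sup_le_sup_left
    rw [Ideal.span_singleton_le_span_singleton]
    exact Dvd.intro_left _ rfl
  have h3 : J ⊔ Ideal.span {g} ≤ col (J ⊔ Ideal.span {f * g}) f := by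
    refine sup_le (le_sup_left.trans (le_col _ _)) ?_
    rw [Ideal.span_singleton_le_iff_mem, mem_col]
    exact Ideal.mem_sup_right (Ideal.subset_span rfl)
  have : Module.Finite k (R ⧸ (J ⊔ Ideal.span {g})) := finite_anti h2
  exact Nat.add_le_add_left (cl_anti h3) _

lemma finite_sup (J Q : Ideal R) [Module.Finite k (R ⧸ J)] : Module.Finite k (R ⧸ (J ⊔ Q)) :=
  finite_anti le_sup_left

/-- The setting: `R` is a local `k`-algebra with residue field `k` whose maximal ideal is generated
by the `N` elements `x 0, …, x (N-1)`. -/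
structure Setting (k : Type v) [Field k] (R : Type u) [CommRing R] [Algebra k R] [IsLocalRing R]
    {N : ℕ} (x : Fin N → R) : Prop where
  span_eq : IsLocalRing.maximalIdeal R = Ideal.span (Set.range x)
  resid : ∀ r : R, ∃ c : k, r - algebraMap k R c ∈ IsLocalRing.maximalIdeal R

variable [IsLocalRing R]

/-- `J` contains a power of the maximal ideal -/
def Cof (J : Ideal R) : Prop := ∃ M : ℕ, IsLocalRing.maximalIdeal R ^ M ≤ J

omit [Algebra k R] in
lemma Cof.mono {J J' : Ideal R} (h : Cof J) (hJ : J ≤ J') : Cof J' :=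
  let ⟨M, hM⟩ := h; ⟨M, hM.trans hJ⟩

lemma cof_top : Cof (⊤ : Ideal R) := ⟨0, le_top⟩

lemma Cof.mul {J J' : Ideal R} (h : Cof J) (h' : Cof J') : Cof (J * J') := by
  obtain ⟨M, hM⟩ := h
  obtain ⟨M', hM'⟩ := h'
  exact ⟨M + M', by rw [pow_add]; exact Ideal.mul_mono hM hM'⟩

lemma Cof.pow {J : Ideal R} (h : Cof J) (n : ℕ) : Cof (J ^ n) := by
  obtain ⟨M, hM⟩ := h
  exact ⟨M * n, by rw [pow_mul]; exact Ideal.pow_right_mono hM n⟩

lemma cof_mul {J : Ideal R} {f g : R} (h1 : Cof (J ⊔ Ideal.span {f}))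
    (h2 : Cof (J ⊔ Ideal.span {g})) : Cof (J ⊔ Ideal.span {f * g}) := by
  refine (h1.mul h2).mono ?_
  have e1 : (J ⊔ Ideal.span {f}) * J ≤ J := Ideal.mul_le_right
  have e2 : J * Ideal.span {g} ≤ J := Ideal.mul_le_left
  have e3 : (J ⊔ Ideal.span {f}) * Ideal.span {g} ≤ J ⊔ Ideal.span {f * g} := by
    rw [Ideal.sup_mul, Ideal.span_singleton_mul_span_singleton]
    exact sup_le_sup_right e2 _
  rw [Ideal.mul_sup]
  exact sup_le (e1.trans le_sup_left) e3

namespace Setting

variable {N : ℕ} {x : Fin N → R}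

lemma exists_finite (S : Setting k R x) (M : ℕ) : ∃ W : Submodule k R, Module.Finite k W ∧
    W ⊔ (IsLocalRing.maximalIdeal R ^ M).restrictScalars k = ⊤ := by
  induction M with
  | zero => exact ⟨⊥, inferInstance, by simp⟩
  | succ M ih =>
    obtain ⟨W, hW, hW'⟩ := ih
    refine ⟨Submodule.span k {1} ⊔ ⨆ i, W.map (LinearMap.mulLeft k (x i)), ?_, ?_⟩
    · infer_instance
    · rw [eq_top_iff]
      intro r _
      obtain ⟨c, hc⟩ := S.resid r
      have h1 : ∀ s ∈ IsLocalRing.maximalIdeal R, s ∈ (⨆ i, W.map (LinearMap.mulLeft k (x i))) ⊔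
          (IsLocalRing.maximalIdeal R ^ (M + 1)).restrictScalars k := by
        intro s hs
        rw [S.span_eq, Ideal.mem_span_range_iff_exists_fun] at hs
        obtain ⟨a, rfl⟩ := hs
        refine sum_mem fun i _ => ?_
        have hai : a i ∈ W ⊔ (IsLocalRing.maximalIdeal R ^ M).restrictScalars k := by
          rw [hW']; trivial
        obtain ⟨w, hw, z, hz, hwz⟩ := Submodule.mem_sup.mp hai
        rw [← hwz, add_mul]
        refine Submodule.add_mem_sup ?_ ?_
        · refine Submodule.mem_iSup_of_mem i ?_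
          exact ⟨w, hw, by simp [mul_comm]⟩
        · rw [Submodule.restrictScalars_mem, pow_succ]
          refine Ideal.mul_mem_mul hz ?_
          rw [S.span_eq]
          exact Ideal.subset_span ⟨i, rfl⟩
      have h2 : r = c • (1 : R) + (r - algebraMap k R c) := by
        rw [Algebra.algebraMap_eq_smul_one]; ring
      rw [h2, sup_assoc]
      exact Submodule.add_mem_sup (Submodule.smul_mem _ _ (Submodule.subset_span rfl)) (h1 _ hc)

lemma finite_pow (S : Setting k R x) (M : ℕ) :
    Module.Finite k (R ⧸ IsLocalRing.maximalIdeal R ^ M) := by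
  obtain ⟨W, hW, h⟩ := S.exists_finite M
  let f : W →ₗ[k] (R ⧸ IsLocalRing.maximalIdeal R ^ M) :=
    (Ideal.Quotient.mkₐ k (IsLocalRing.maximalIdeal R ^ M)).toLinearMap ∘ₗ W.subtype
  refine Module.Finite.of_surjective f ?_
  intro y
  obtain ⟨r, rfl⟩ := Ideal.Quotient.mk_surjective y
  have hr : r ∈ W ⊔ (IsLocalRing.maximalIdeal R ^ M).restrictScalars k := by rw [h]; trivial
  obtain ⟨w, hw, z, hz, hwz⟩ := Submodule.mem_sup.mp hr
  refine ⟨⟨w, hw⟩, ?_⟩
  change Ideal.Quotient.mk _ w = Ideal.Quotient.mk _ r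
  rw [Ideal.Quotient.eq, ← hwz]
  simpa using neg_mem hz

lemma finite_of_cof (S : Setting k R x) {J : Ideal R} (hJ : Cof J) : Module.Finite k (R ⧸ J) := by
  obtain ⟨M, hM⟩ := hJ
  have := S.finite_pow M
  exact finite_anti hM

lemma fg_pow (S : Setting k R x) (M : ℕ) : (IsLocalRing.maximalIdeal R ^ M).FG := by
  apply Submodule.FG.pow
  rw [S.span_eq]
  exact Submodule.fg_span (Set.finite_range x)

/-- if `cl (J + m^M) < M` then `m^M ≤ J` -/
lemma le_of_cl_lt (S : Setting k R x) {J : Ideal R} {M : ℕ}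
    (h : cl k (J ⊔ IsLocalRing.maximalIdeal R ^ M) < M) : IsLocalRing.maximalIdeal R ^ M ≤ J := by
  by_contra hcon
  have key : ∀ j ≤ M, j ≤ cl k (J ⊔ IsLocalRing.maximalIdeal R ^ j) := by
    intro j
    induction j with
    | zero => intro _; exact Nat.zero_le _
    | succ j ih =>
      intro hj
      have ih' := ih (by omega)
      have hle : J ⊔ IsLocalRing.maximalIdeal R ^ (j + 1) ≤ J ⊔ IsLocalRing.maximalIdeal R ^ j :=
        sup_le_sup_left (Ideal.pow_le_pow_right (Nat.le_succ j)) _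
      have hfin : Module.Finite k (R ⧸ (J ⊔ IsLocalRing.maximalIdeal R ^ (j + 1))) :=
        S.finite_of_cof ⟨j + 1, le_sup_right⟩
      have h1 := cl_anti (k := k) hle
      rcases h1.lt_or_eq with h2 | h2
      · omega
      · exfalso
        have h3 : J ⊔ IsLocalRing.maximalIdeal R ^ (j + 1) = J ⊔ IsLocalRing.maximalIdeal R ^ j :=
          eq_of_cl_eq (k := k) hle h2.symm
        have h4 : IsLocalRing.maximalIdeal R ^ j ≤ J := by
          apply Submodule.le_of_le_smul_of_le_jacobson_bot (I := IsLocalRing.maximalIdeal R)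
            (S.fg_pow j) (IsLocalRing.maximalIdeal_le_jacobson _)
          rw [smul_eq_mul, ← pow_succ', h3]
          exact le_sup_right
        exact hcon ((Ideal.pow_le_pow_right (by omega)).trans h4)
  exact absurd (key M le_rfl) (by omega)

end Setting

end Pool.Agent.TH206.Lech
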