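import Mathlib

set_option autoImplicit false

namespace Pool.Agent.TH206.Lech

open Module

universe u v

variable {k : Type v} [Field k] {A : Type*} [AddCommGroup A] [Module k A]

lemma poly_zero [Infinite k] (w : ℕ → A) (n : ℕ) (T : Set k) (hT : T.Finite)
    (h : ∀ t ∉ T, ∑ j ∈ Finset.range n, t ^ j • w j = 0) : ∀ j < n, w j = 0 := by
  intro j hj
  rw [← Module.forall_dual_apply_eq_zero_iff k]
  intro φ
  let P : Polynomial k := ∑ j ∈ Finset.range n, Polynomial.monomial j (φ (w j))
  have hP : ∀ t ∉ T, P.eval t = 0 := by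
    intro t ht
    have h1 := congrArg φ (h t ht)
    rw [map_sum, map_zero] at h1
    simp only [P, Polynomial.eval_finsetSum, Polynomial.eval_monomial]
    rw [← h1]
    refine Finset.sum_congr rfl fun i _ => ?_
    rw [map_smul, smul_eq_mul, mul_comm]
  have hP0 : P = 0 := by
    apply Polynomial.eq_zero_of_infinite_isRoot
    refine Set.Infinite.mono ?_ hT.infinite_compl
    intro t ht
    exact hP t ht
  have h2 : P.coeff j = φ (w j) := by
    simp only [P, Polynomial.finsetSum_coeff, Polynomial.coeff_monomial]
    rw [Finset.sum_ite_eq' (Finset.range n) j]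
    simp [hj]
  rw [← h2, hP0, Polynomial.coeff_zero]

/-- Kronecker: a kernel vector of the pencil `L₀ + t L₁` at a point `t = 0` of maximal rank extends
to a polynomial kernel vector. -/
lemma pencil [Infinite k] [Module.Finite k A] (L₀ L₁ : A →ₗ[k] A)
    (hr : {t : k | finrank k (LinearMap.range L₀) < finrank k (LinearMap.range (L₀ + t • L₁))}.Finite)
    (v : A) (hv : L₀ v = 0) :
    ∃ (y : ℕ → A) (n : ℕ), y 0 = v ∧ (∀ j, L₀ (y (j + 1)) + L₁ (y j) = 0) ∧
      ∀ j, n ≤ j → y j = 0 := by
  classical
  obtain ⟨s₀, hs₀⟩ := LinearMap.exists_rightInverse_of_surjective L₀.rangeRestrict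
    (LinearMap.range_rangeRestrict L₀)
  obtain ⟨p, hp⟩ := LinearMap.exists_leftInverse_of_injective (LinearMap.range L₀).subtype
    (Submodule.ker_subtype _)
  let V := LinearMap.range L₀
  let b := Module.finBasis k V
  let d := finrank k V
  have hs : ∀ q : V, L₀ (s₀ q) = q := fun q => congrArg Subtype.val (LinearMap.congr_fun hs₀ q)
  have hpp : ∀ q : V, p (q : A) = q := fun q => LinearMap.congr_fun hp q
  let ψ : V →ₗ[k] V := p ∘ₗ L₁ ∘ₗ s₀
  let Ψ : Matrix (Fin d) (Fin d) k := LinearMap.toMatrix b b ψ
  let MM : Matrix (Fin d) (Fin d) (Polynomial k) :=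
    1 + (Polynomial.X : Polynomial k) • Ψ.map Polynomial.C
  let β : V := p (L₁ v)
  let z : Fin d → Polynomial k := MM.adjugate.mulVec (fun i => Polynomial.C (b.repr β i))
  let D : Polynomial k := MM.det
  -- evaluation
  have hMM : ∀ t : k, MM.map (Polynomial.eval t) = LinearMap.toMatrix b b (LinearMap.id + t • ψ) := by
    intro t
    rw [map_add, LinearMap.toMatrix_id, map_smul]
    ext i j
    simp only [MM, Matrix.map_apply, Matrix.add_apply, Polynomial.eval_add, Matrix.smul_apply,
      smul_eq_mul, Polynomial.eval_mul, Polynomial.eval_X, Polynomial.eval_C]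
    congr 1
    rw [Matrix.one_apply, Matrix.one_apply]
    split_ifs <;> simp
  let zt : k → V := fun t => ∑ i, (z i).eval t • b i
  have hzt : ∀ t, (b.repr (zt t) : Fin d → k) = fun i => (z i).eval t := by
    intro t
    funext i
    simp [zt, Finsupp.single_apply]
  have hsolve : ∀ t, (LinearMap.id + t • ψ : V →ₗ[k] V) (zt t) = D.eval t • β := by
    intro t
    apply b.repr.injective
    ext i
    have h1 := congrFun (LinearMap.toMatrix_mulVec_repr b b (LinearMap.id + t • ψ) (zt t)) i
    rw [← h1, ← hMM, hzt]
    have h2 : MM.mulVec z = fun i => D * Polynomial.C (b.repr β i) := by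
      simp only [z, Matrix.mulVec_mulVec, Matrix.mul_adjugate, Matrix.smul_mulVec,
        Matrix.one_mulVec]
      rfl
    have h3 := congrArg (Polynomial.eval t) (congrFun h2 i)
    simp only [Matrix.mulVec, dotProduct, Polynomial.eval_finsetSum, Polynomial.eval_mul,
      Polynomial.eval_C] at h3
    simp only [Matrix.mulVec, dotProduct, Matrix.map_apply]
    rw [h3, map_smul]
    rfl
  have hD0 : D.eval 0 = 1 := by
    have h1 : D.eval 0 = (MM.map (Polynomial.eval 0)).det := by
      have := RingHom.map_det (Polynomial.evalRingHom (0 : k)) MM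
      exact this
    rw [h1, hMM, zero_smul, add_zero, LinearMap.toMatrix_id, Matrix.det_one]
  -- bound on the degrees
  let n := D.natDegree + ∑ i, (z i).natDegree + 2
  have hDn : D.natDegree < n := by omega
  have hzn : ∀ i, (z i).natDegree + 1 < n := by
    intro i
    have : (z i).natDegree ≤ ∑ i, (z i).natDegree :=
      Finset.single_le_sum (f := fun i => (z i).natDegree) (fun _ _ => Nat.zero_le _)
        (Finset.mem_univ i)
    omega
  let y : ℕ → A := fun j => D.coeff j • v -
    s₀ (∑ i, ((Polynomial.X * z i).coeff j) • b i)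
  have hyn : ∀ j, n ≤ j → y j = 0 := by
    intro j hj
    have h1 : D.coeff j = 0 := Polynomial.coeff_eq_zero_of_natDegree_lt (by omega)
    have h2 : ∀ i, (Polynomial.X * z i).coeff j = 0 := by
      intro i
      apply Polynomial.coeff_eq_zero_of_natDegree_lt
      have h3 : (Polynomial.X * z i).natDegree ≤ 1 + (z i).natDegree := by
        refine Polynomial.natDegree_mul_le.trans ?_
        rw [Polynomial.natDegree_X]
      have := hzn i
      omega
    simp only [y, h1, h2, zero_smul, Finset.sum_const_zero, map_zero, sub_zero]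
  have hY : ∀ t, ∑ j ∈ Finset.range n, t ^ j • y j = D.eval t • v - t • s₀ (zt t) := by
    intro t
    have h1 : D.eval t = ∑ j ∈ Finset.range n, D.coeff j * t ^ j :=
      Polynomial.eval_eq_sum_range' hDn t
    have h2 : ∀ i, t * (z i).eval t =
        ∑ j ∈ Finset.range n, (Polynomial.X * z i).coeff j * t ^ j := by
      intro i
      rw [← Polynomial.eval_eq_sum_range' (n := n) (p := Polynomial.X * z i)]
      · rw [Polynomial.eval_mul, Polynomial.eval_X]
      · have h3 : (Polynomial.X * z i).natDegree ≤ 1 + (z i).natDegree := by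
          refine Polynomial.natDegree_mul_le.trans ?_
          rw [Polynomial.natDegree_X]
        have := hzn i
        omega
    have h3 : t • s₀ (zt t) = ∑ j ∈ Finset.range n,
        t ^ j • s₀ (∑ i, ((Polynomial.X * z i).coeff j) • b i) := by
      rw [← map_smul]
      simp only [zt, Finset.smul_sum, smul_smul, h2, Finset.sum_smul, map_sum, ← map_smul]
      rw [Finset.sum_comm]
      refine Finset.sum_congr rfl fun j _ => Finset.sum_congr rfl fun i _ => ?_
      rw [mul_comm]
    rw [h1, h3, Finset.sum_smul, ← Finset.sum_sub_distrib]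
    refine Finset.sum_congr rfl fun j _ => ?_
    rw [smul_sub, smul_smul, mul_comm]
  refine ⟨y, n, ?_, ?_, hyn⟩
  · have h1 : D.coeff 0 = 1 := by rw [Polynomial.coeff_zero_eq_eval_zero, hD0]
    simp [y, h1]
  · have hD : D ≠ 0 := by
      intro h
      rw [h, Polynomial.eval_zero] at hD0
      exact zero_ne_one hD0
    have hker : ∀ t ∉ ({t : k | D.IsRoot t} ∪
        {t : k | finrank k (LinearMap.range L₀) < finrank k (LinearMap.range (L₀ + t • L₁))}),
        (L₀ + t • L₁) (D.eval t • v - t • s₀ (zt t)) = 0 := by
      intro t ht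
      simp only [Set.mem_union, Set.mem_ofPred_eq, Polynomial.IsRoot, not_or, not_lt] at ht
      obtain ⟨ht1, ht2⟩ := ht
      have hθ : ∀ q : V, p ((L₀ + t • L₁) (s₀ q)) = (LinearMap.id + t • ψ : V →ₗ[k] V) q := by
        intro q
        simp only [LinearMap.add_apply, LinearMap.smul_apply, map_add, map_smul, hs, hpp]
        rfl
      have hinj : Function.Injective (LinearMap.id + t • ψ : V →ₗ[k] V) := by
        have h1 : LinearMap.det (LinearMap.id + t • ψ : V →ₗ[k] V) = D.eval t := by
          rw [← LinearMap.det_toMatrix b, ← hMM]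
          exact (RingHom.map_det (Polynomial.evalRingHom t) MM).symm
        have h2 := (LinearEquiv.ofIsUnitDet (v := b) (v' := b)
          (f := (LinearMap.id + t • ψ : V →ₗ[k] V))
          (by rw [LinearMap.det_toMatrix, h1]; exact isUnit_iff_ne_zero.mpr ht1)).injective
        exact h2
      have hrange : LinearMap.range ((L₀ + t • L₁) ∘ₗ s₀) = LinearMap.range (L₀ + t • L₁) := by
        apply Submodule.eq_of_le_of_finrank_le
        · exact LinearMap.range_comp_le_range _ _
        · refine ht2.trans (le_of_eq ?_)
          symm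
          apply LinearMap.finrank_range_of_inj
          intro q q' hq
          apply hinj
          rw [← hθ, ← hθ]
          exact congrArg p hq
      have hmem : (L₀ + t • L₁) (D.eval t • v - t • s₀ (zt t)) ∈
          LinearMap.range ((L₀ + t • L₁) ∘ₗ s₀) := by
        rw [hrange]
        exact LinearMap.mem_range_self _ _
      obtain ⟨q, hq⟩ := hmem
      have hpz : p ((L₀ + t • L₁) (D.eval t • v - t • s₀ (zt t))) = 0 := by
        rw [map_sub, map_smul, map_smul, map_sub, map_smul, map_smul, hθ, hsolve]
        simp only [LinearMap.add_apply, LinearMap.smul_apply, hv, zero_add, map_smul]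
        rw [smul_comm]
        exact sub_self _
      rw [← hq, LinearMap.comp_apply, hθ] at hpz
      have hq0 : q = 0 := hinj (by rw [hpz, map_zero])
      rw [← hq, hq0, map_zero]
    let w : ℕ → A := fun j => L₀ (y j) + (if j = 0 then 0 else L₁ (y (j - 1)))
    have hw : ∀ j < n + 1, w j = 0 := by
      refine poly_zero w (n + 1) _ ((Polynomial.finite_setOfPred_isRoot hD).union hr) ?_
      intro t ht
      rw [← hker t ht, ← hY]
      have h1 : ∑ j ∈ Finset.range (n + 1), t ^ j • w j =
          ∑ j ∈ Finset.range (n + 1), t ^ j • L₀ (y j) +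
          ∑ j ∈ Finset.range (n + 1), t ^ j • (if j = 0 then 0 else L₁ (y (j - 1))) := by
        rw [← Finset.sum_add_distrib]
        exact Finset.sum_congr rfl fun j _ => smul_add _ _ _
      have h2 : ∑ j ∈ Finset.range (n + 1), t ^ j • (if j = 0 then 0 else L₁ (y (j - 1))) =
          ∑ j ∈ Finset.range n, t ^ (j + 1) • L₁ (y j) := by
        rw [Finset.sum_range_succ']
        simp
      have h3 : ∑ j ∈ Finset.range (n + 1), t ^ j • L₀ (y j) =
          ∑ j ∈ Finset.range n, t ^ j • L₀ (y j) := by
        rw [Finset.sum_range_succ, hyn n le_rfl, map_zero, smul_zero, add_zero]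
      rw [h1, h2, h3, LinearMap.add_apply, LinearMap.smul_apply, map_sum, map_sum,
        Finset.smul_sum]
      congr 1
      · exact Finset.sum_congr rfl fun j _ => (map_smul _ _ _).symm
      · refine Finset.sum_congr rfl fun j _ => ?_
        rw [map_smul, smul_smul, pow_succ, mul_comm]
    intro j
    by_cases hj : j + 1 < n + 1
    · have := hw (j + 1) hj
      simpa [w] using this
    · rw [hyn (j + 1) (by omega), hyn j (by omega), map_zero, map_zero, add_zero]

end Pool.Agent.TH206.Lech
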