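import Pool.Agent.TH206.Lech.Basic
import Pool.Agent.TH206.Lech.Pencil

set_option autoImplicit false

namespace Pool.Agent.TH206.Lech

open Module

universe u v

section Ring

variable {R : Type u} [CommRing R]

/-- `K` is integral over `I`, in a uniform form. -/
def Int (I K : Ideal R) : Prop := ∃ s : ℕ, ∀ r : ℕ, K ^ (r + s) ≤ I ^ r

lemma sup_pow_le (I : Ideal R) (w : R) (n : ℕ) : (I ⊔ Ideal.span {w}) ^ (n + 1) ≤
    I * (I ⊔ Ideal.span {w}) ^ n ⊔ Ideal.span {w ^ (n + 1)} := by
  induction n with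
  | zero => simp
  | succ n ih =>
    set K := I ⊔ Ideal.span {w} with hK
    have h1 : K ^ (n + 1 + 1) = I * K ^ (n + 1) ⊔ Ideal.span {w} * K ^ (n + 1) := by
      rw [pow_succ' K (n + 1)]
      conv_lhs => rw [hK, Ideal.sup_mul]
    rw [h1]
    refine sup_le le_sup_left ?_
    calc Ideal.span {w} * K ^ (n + 1) ≤ Ideal.span {w} * (I * K ^ n ⊔ Ideal.span {w ^ (n + 1)}) :=
          Ideal.mul_mono_right ih
      _ = I * (Ideal.span {w} * K ^ n) ⊔ Ideal.span {w ^ (n + 1 + 1)} := by
          rw [Ideal.mul_sup, Ideal.span_singleton_mul_span_singleton, ← pow_succ']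
          congr 1
          rw [← mul_assoc, ← mul_assoc, mul_comm I]
      _ ≤ I * K ^ (n + 1) ⊔ Ideal.span {w ^ (n + 1 + 1)} := by
          refine sup_le_sup_right (Ideal.mul_mono_right ?_) _
          rw [pow_succ' K n]
          exact Ideal.mul_mono_left le_sup_right

lemma int_of_pow_mem (I : Ideal R) (w : R) (n : ℕ)
    (h : w ^ (n + 1) ∈ I * (I ⊔ Ideal.span {w}) ^ n) : Int I (I ⊔ Ideal.span {w}) := by
  set K := I ⊔ Ideal.span {w} with hK
  have h1 : K ^ (n + 1) ≤ I * K ^ n := by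
    refine (sup_pow_le I w n).trans (sup_le le_rfl ?_)
    rwa [Ideal.span_singleton_le_iff_mem]
  refine ⟨n, fun r => ?_⟩
  have h2 : ∀ r, K ^ (r + n) ≤ I ^ r * K ^ n := by
    intro r
    induction r with
    | zero => simp
    | succ r ih =>
      calc K ^ (r + 1 + n) = K ^ r * K ^ (n + 1) := by rw [← pow_add]; congr 1; omega
        _ ≤ K ^ r * (I * K ^ n) := Ideal.mul_mono_right h1
        _ = I * K ^ (r + n) := by rw [pow_add]; ring
        _ ≤ I * (I ^ r * K ^ n) := Ideal.mul_mono_right ih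
        _ = I ^ (r + 1) * K ^ n := by rw [pow_succ]; ring
  exact (h2 r).trans Ideal.mul_le_left

/-- The integral equation coming from a polynomial kernel vector of a pencil. -/
lemma kron (I : Ideal R) (ℓ₀ ℓ₁ : R) (u : ℕ → R) (h0 : ℓ₀ * u 0 ∈ I)
    (h : ∀ j, ℓ₀ * u (j + 1) + ℓ₁ * u j ∈ I) (n : ℕ) (hn : ∀ j, n ≤ j → u j ∈ I) :
    Int I (I ⊔ Ideal.span {ℓ₁ * u 0}) := by
  set w := ℓ₁ * u 0 with hw
  set K := I ⊔ Ideal.span {w} with hK
  have hIK : I ≤ K := le_sup_left
  have hwK : w ∈ K := Ideal.mem_sup_right (Ideal.subset_span rfl)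
  have hIm : ∀ m, I ^ (m + 1) ≤ I * K ^ m := by
    intro m
    rw [pow_succ']
    exact Ideal.mul_mono_right (Ideal.pow_right_mono hIK m)
  have claim : ∀ m : ℕ, w ^ (m + 1) - (-1) ^ (m + 1) * (ℓ₀ * u 0) ^ m * (ℓ₀ * u (m + 1)) ∈
      I * K ^ m := by
    intro m
    induction m with
    | zero =>
      have := h 0
      simp only [zero_add, pow_one, pow_zero, mul_one, Ideal.one_eq_top, Ideal.mul_top]
      convert this using 1
      rw [hw]; ring
    | succ m ih =>
      have e : w ^ (m + 1 + 1) - (-1) ^ (m + 1 + 1) * (ℓ₀ * u 0) ^ (m + 1) * (ℓ₀ * u (m + 1 + 1)) =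
          w * (w ^ (m + 1) - (-1) ^ (m + 1) * (ℓ₀ * u 0) ^ m * (ℓ₀ * u (m + 1))) +
          (-1) ^ (m + 1) * ((ℓ₀ * u 0) ^ (m + 1) * (ℓ₀ * u (m + 1 + 1) + ℓ₁ * u (m + 1))) := by
        rw [hw]; ring
      rw [e]
      refine add_mem ?_ ?_
      · have : w * (w ^ (m + 1) - (-1) ^ (m + 1) * (ℓ₀ * u 0) ^ m * (ℓ₀ * u (m + 1))) ∈
            K * (I * K ^ m) := Ideal.mul_mem_mul hwK ih
        have e2 : K * (I * K ^ m) = I * K ^ (m + 1) := by rw [pow_succ]; ring
        rwa [e2] at this
      · refine Ideal.mul_mem_left _ _ (hIm (m + 1) ?_)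
        rw [pow_succ I (m + 1)]
        exact Ideal.mul_mem_mul (Ideal.pow_mem_pow h0 _) (h _)
  refine int_of_pow_mem I w n ?_
  have h1 := claim n
  have h2 : (-1) ^ (n + 1) * (ℓ₀ * u 0) ^ n * (ℓ₀ * u (n + 1)) ∈ I * K ^ n := by
    refine hIm n ?_
    rw [pow_succ I n]
    refine Ideal.mul_mem_mul (Ideal.mul_mem_left _ _ (Ideal.pow_mem_pow h0 _)) ?_
    exact Ideal.mul_mem_left _ _ (hn _ (Nat.le_succ n))
  have := add_mem h1 h2
  simpa using this

lemma Int.refl (I : Ideal R) : Int I I := ⟨0, fun r => by simp⟩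

lemma Int.trans {I J K : Ideal R} (h1 : Int I J) (h2 : Int J K) : Int I K := by
  obtain ⟨s, hs⟩ := h1
  obtain ⟨t, ht⟩ := h2
  exact ⟨s + t, fun r => by rw [← add_assoc]; exact (ht _).trans (hs r)⟩

/-- integrally closed -/
def Closed (I : Ideal R) : Prop := ∀ K : Ideal R, I ≤ K → Int I K → K ≤ I

end Ring

variable {k : Type v} [Field k] {R : Type u} [CommRing R] [Algebra k R]

lemma finrank_mul (I : Ideal R) (f : R) [Module.Finite k (R ⧸ I)] :
    cl k (I ⊔ Ideal.span {f}) +
      finrank k (LinearMap.range (LinearMap.mulLeft k (Ideal.Quotient.mk I f))) = cl k I := by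
  have hr : LinearMap.range (LinearMap.mulLeft k (Ideal.Quotient.mk I f)) =
      ((Ideal.span {f}).map (Ideal.Quotient.mkₐ k I)).restrictScalars k := by
    ext y
    simp only [LinearMap.mem_range, Submodule.restrictScalars_mem]
    rw [Ideal.mem_map_iff_of_surjective _ (Ideal.Quotient.mkₐ_surjective k I)]
    constructor
    · rintro ⟨z, rfl⟩
      obtain ⟨x, rfl⟩ := Ideal.Quotient.mk_surjective z
      exact ⟨f * x, Ideal.mul_mem_right _ _ (Ideal.subset_span rfl), rfl⟩
    · rintro ⟨z, hz, rfl⟩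
      obtain ⟨x, rfl⟩ := Ideal.mem_span_singleton'.mp hz
      exact ⟨Ideal.Quotient.mk I x, by
        change Ideal.Quotient.mk I f * Ideal.Quotient.mk I x = Ideal.Quotient.mk I (x * f)
        rw [← map_mul, mul_comm]⟩
  have e2 : ((R ⧸ I) ⧸ LinearMap.range (LinearMap.mulLeft k (Ideal.Quotient.mk I f))) ≃ₗ[k]
      (R ⧸ (I ⊔ Ideal.span {f})) := by
    rw [hr]
    exact (DoubleQuot.quotQuotEquivQuotSupₐ k I (Ideal.span {f})).toLinearEquiv
  have h2 := Submodule.finrank_quotient_add_finrank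
    (LinearMap.range (LinearMap.mulLeft k (Ideal.Quotient.mk I f)))
  rw [LinearEquiv.finrank_eq e2] at h2
  exact h2

variable [IsLocalRing R] {N : ℕ} {x : Fin N → R}

/-- For a closed ideal `I` there is a linear form `ℓ` with `m (I : ℓ) ≤ I`. -/
lemma Setting.exists_form [Infinite k] (S : Setting k R x) (hN : 0 < N) {I : Ideal R}
    (hI : Cof I) (hcl : Closed I) :
    ∃ c : Fin N → k, c ≠ 0 ∧ ∀ u : R, (∑ i, c i • x i) * u ∈ I →
      ∀ v ∈ IsLocalRing.maximalIdeal R, v * u ∈ I := by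
  have hfin := S.finite_of_cof hI
  let F : Set ℕ := {n | ∃ c : Fin N → k, c ≠ 0 ∧ cl k (I ⊔ Ideal.span {∑ i, c i • x i}) = n}
  have hF : F.Nonempty := by
    refine ⟨_, (fun _ => 1), ?_, rfl⟩
    intro h
    exact one_ne_zero (congrFun h ⟨0, hN⟩)
  obtain ⟨c, hc0, hc⟩ := Nat.sInf_mem hF
  have hmin : ∀ c' : Fin N → k, c' ≠ 0 → cl k (I ⊔ Ideal.span {∑ i, c i • x i}) ≤
      cl k (I ⊔ Ideal.span {∑ i, c' i • x i}) := by
    intro c' hc'
    rw [hc]
    exact Nat.sInf_le ⟨c', hc', rfl⟩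
  refine ⟨c, hc0, fun u hu v hv => ?_⟩
  have key : ∀ i, x i * u ∈ I := by
    intro i
    let ℓ₀ := ∑ i, c i • x i
    let L₀ := LinearMap.mulLeft k (Ideal.Quotient.mk I ℓ₀)
    let L₁ := LinearMap.mulLeft k (Ideal.Quotient.mk I (x i))
    have hbad : {t : k | finrank k (LinearMap.range L₀) <
        finrank k (LinearMap.range (L₀ + t • L₁))}.Finite := by
      have hsub : {t : k | finrank k (LinearMap.range L₀) <
          finrank k (LinearMap.range (L₀ + t • L₁))} ⊆ {t : k | c + t • (Pi.single i 1 : Fin N → k) = 0} := by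
        intro t ht
        by_contra hcon
        have h1 := hmin _ hcon
        have h2 : ∑ j, (c + t • Pi.single i (1 : k) : Fin N → k) j • x j = ℓ₀ + t • x i := by
          simp only [Pi.add_apply, Pi.smul_apply, add_smul, Finset.sum_add_distrib, ℓ₀]
          congr 1
          rw [Finset.sum_eq_single i]
          · simp
          · intro j _ hj
            simp [Pi.single_eq_of_ne hj]
          · intro h; exact absurd (Finset.mem_univ i) h
        rw [h2] at h1
        have h3 : L₀ + t • L₁ = LinearMap.mulLeft k (Ideal.Quotient.mk I (ℓ₀ + t • x i)) := by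
          refine LinearMap.ext fun y => ?_
          have h9 : Ideal.Quotient.mk I (t • x i) = t • Ideal.Quotient.mk I (x i) :=
            map_smul (Ideal.Quotient.mkₐ k I) t (x i)
          rw [LinearMap.add_apply, LinearMap.smul_apply, LinearMap.mulLeft_apply,
            LinearMap.mulLeft_apply, LinearMap.mulLeft_apply, map_add, h9, add_mul,
            smul_mul_assoc]
        have h4 := finrank_mul (k := k) I ℓ₀
        have h5 := finrank_mul (k := k) I (ℓ₀ + t • x i)
        rw [← h3] at h5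
        have h6 : finrank k (LinearMap.range L₀) < finrank k (LinearMap.range (L₀ + t • L₁)) := ht
        have h7 : cl k (I ⊔ Ideal.span {ℓ₀}) + finrank k (LinearMap.range L₀) = cl k I := h4
        have h8 : cl k (I ⊔ Ideal.span {ℓ₀}) ≤ cl k (I ⊔ Ideal.span {ℓ₀ + t • x i}) := h1
        omega
      refine Set.Finite.subset ?_ hsub
      apply Set.Subsingleton.finite
      intro t ht t' ht'
      have h1 : c i + t * 1 = 0 := by simpa using congrFun ht i
      have h2 : c i + t' * 1 = 0 := by simpa using congrFun ht' i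
      linear_combination h1 - h2
    have hv0 : L₀ (Ideal.Quotient.mk I u) = 0 := by
      change Ideal.Quotient.mk I ℓ₀ * Ideal.Quotient.mk I u = 0
      rw [← map_mul]
      exact Ideal.Quotient.eq_zero_iff_mem.mpr hu
    obtain ⟨y, n, hy0, hy, hyn⟩ := pencil L₀ L₁ hbad _ hv0
    have hlift : ∀ j, ∃ z : R, Ideal.Quotient.mk I z = y j := fun j =>
      Ideal.Quotient.mk_surjective (y j)
    choose z hz using hlift
    let z' : ℕ → R := fun j => if j = 0 then u else z j
    have hz' : ∀ j, Ideal.Quotient.mk I (z' j) = y j := by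
      intro j
      by_cases hj : j = 0
      · simp [z', hj, hy0]
      · simp [z', hj, hz]
    have hint := kron I ℓ₀ (x i) z' hu (by
      intro j
      rw [← Ideal.Quotient.eq_zero_iff_mem, map_add, map_mul, map_mul, hz', hz']
      exact hy j) n (by
      intro j hj
      rw [← Ideal.Quotient.eq_zero_iff_mem, hz', hyn j hj])
    have hle := hcl _ le_sup_left hint
    exact hle (Ideal.mem_sup_right (Ideal.subset_span rfl))
  rw [S.span_eq, Ideal.mem_span_range_iff_exists_fun] at hv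
  obtain ⟨a, rfl⟩ := hv
  rw [Finset.sum_mul]
  refine sum_mem fun i _ => ?_
  rw [mul_assoc]
  exact Ideal.mul_mem_left _ _ (key i)

end Pool.Agent.TH206.Lech
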