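import Mathlib

set_option autoImplicit false

namespace Pool.Agent.TH206.Lech

open Polynomial

/-- bilinear evaluation of an array `M` on two polynomials -/
noncomputable def B (M : ℕ → ℕ → ℝ) (D : ℕ) (p q : ℕ[X]) : ℝ :=
  ∑ a ∈ Finset.range D, ∑ b ∈ Finset.range D, (p.coeff a : ℝ) * (q.coeff b : ℝ) * M a b

variable (M : ℕ → ℕ → ℝ) (D : ℕ)

lemma B_add_left (p p' q : ℕ[X]) : B M D (p + p') q = B M D p q + B M D p' q := by
  unfold B
  rw [← Finset.sum_add_distrib]
  refine Finset.sum_congr rfl fun a _ => ?_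
  rw [← Finset.sum_add_distrib]
  refine Finset.sum_congr rfl fun b _ => ?_
  rw [coeff_add]; push_cast; ring

lemma B_add_right (p q q' : ℕ[X]) : B M D p (q + q') = B M D p q + B M D p q' := by
  unfold B
  rw [← Finset.sum_add_distrib]
  refine Finset.sum_congr rfl fun a _ => ?_
  rw [← Finset.sum_add_distrib]
  refine Finset.sum_congr rfl fun b _ => ?_
  rw [coeff_add]; push_cast; ring

lemma B_nat_left (n : ℕ) (p q : ℕ[X]) : B M D ((n : ℕ[X]) * p) q = n * B M D p q := by
  unfold B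
  rw [Finset.mul_sum]
  refine Finset.sum_congr rfl fun a _ => ?_
  rw [Finset.mul_sum]
  refine Finset.sum_congr rfl fun b _ => ?_
  rw [coeff_natCast_mul]; push_cast; ring

lemma B_nat_right (n : ℕ) (p q : ℕ[X]) : B M D p ((n : ℕ[X]) * q) = n * B M D p q := by
  unfold B
  rw [Finset.mul_sum]
  refine Finset.sum_congr rfl fun a _ => ?_
  rw [Finset.mul_sum]
  refine Finset.sum_congr rfl fun b _ => ?_
  rw [coeff_natCast_mul]; push_cast; ring

lemma B_X_left (p q : ℕ[X]) (hp : p.natDegree + 1 < D) : B M D (X * p) q =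
    ∑ a ∈ Finset.range D, ∑ b ∈ Finset.range D, (p.coeff a : ℝ) * (q.coeff b : ℝ) * M (a + 1) b := by
  unfold B
  obtain ⟨D, rfl⟩ : ∃ D', D = D' + 1 := ⟨D - 1, by omega⟩
  rw [Finset.sum_range_succ', Finset.sum_range_succ (n := D)
    (f := fun a => ∑ b ∈ Finset.range (D + 1), (p.coeff a : ℝ) * (q.coeff b : ℝ) * M (a + 1) b)]
  have h1 : p.coeff D = 0 := coeff_eq_zero_of_natDegree_lt (by omega)
  simp only [coeff_X_mul, coeff_X_mul_zero, h1, Nat.cast_zero, zero_mul, Finset.sum_const_zero,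
    add_zero]

lemma B_X_right (p q : ℕ[X]) (hq : q.natDegree + 1 < D) : B M D p (X * q) =
    ∑ a ∈ Finset.range D, ∑ b ∈ Finset.range D, (p.coeff a : ℝ) * (q.coeff b : ℝ) * M a (b + 1) := by
  unfold B
  refine Finset.sum_congr rfl fun a _ => ?_
  obtain ⟨D, rfl⟩ : ∃ D', D = D' + 1 := ⟨D - 1, by omega⟩
  rw [Finset.sum_range_succ', Finset.sum_range_succ (n := D)
    (f := fun b => (p.coeff a : ℝ) * (q.coeff b : ℝ) * M a (b + 1))]
  have h1 : q.coeff D = 0 := coeff_eq_zero_of_natDegree_lt (by omega)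
  simp only [coeff_X_mul, coeff_X_mul_zero, h1, Nat.cast_zero, zero_mul, mul_zero, add_zero]

variable {M D} {N : ℕ}

lemma B_step (hM : ∀ a b, a + b + 1 ≤ N → M (a + 1) b ≤ M a (b + 1) + M a b) (hD : N < D)
    (p q : ℕ[X]) (hpq : p.natDegree + q.natDegree + 1 ≤ N) :
    B M D (p * X) q ≤ B M D p (q * (X + 1)) := by
  rw [mul_add, mul_one, B_add_right, mul_comm p X, mul_comm q X, B_X_left M D p q (by omega),
    B_X_right M D p q (by omega)]
  unfold B
  rw [← Finset.sum_add_distrib]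
  refine Finset.sum_le_sum fun a _ => ?_
  rw [← Finset.sum_add_distrib]
  refine Finset.sum_le_sum fun b _ => ?_
  by_cases h : a ≤ p.natDegree ∧ b ≤ q.natDegree
  · rw [← mul_add]
    exact mul_le_mul_of_nonneg_left (hM a b (by omega)) (by positivity)
  · have h1 : (p.coeff a : ℝ) * (q.coeff b : ℝ) = 0 := by
      by_cases h2 : a ≤ p.natDegree
      · rw [coeff_eq_zero_of_natDegree_lt (p := q) (n := b) (by omega)]; simp
      · rw [coeff_eq_zero_of_natDegree_lt (p := p) (n := a) (by omega)]; simp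
    simp [h1]

/-- the factors `y ∏_{i < j < N} (y + j)` -/
noncomputable def Q (N i : ℕ) : ℕ[X] := X * ∏ j ∈ Finset.Ico (i + 1) N, (X + (j : ℕ[X]))

lemma Q_succ {N i : ℕ} (h : i + 1 < N) : Q N i = Q N (i + 1) * (X + ((i + 1 : ℕ) : ℕ[X])) := by
  unfold Q
  rw [Finset.prod_eq_prod_Ico_succ_bot h]
  ring

lemma natDegree_Q {N i : ℕ} (h : i < N) : (Q N i).natDegree ≤ N - i := by
  unfold Q
  refine natDegree_mul_le.trans ?_
  rw [natDegree_X]
  have h1 : (∏ j ∈ Finset.Ico (i + 1) N, (X + (j : ℕ[X]))).natDegree ≤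
      ∑ j ∈ Finset.Ico (i + 1) N, (X + (j : ℕ[X]) : ℕ[X]).natDegree := natDegree_prod_le _ _
  have h2 : ∀ j ∈ Finset.Ico (i + 1) N, (X + (j : ℕ[X]) : ℕ[X]).natDegree ≤ 1 := by
    intro j _
    refine natDegree_add_le_of_degree_le natDegree_X.le ?_
    rw [natDegree_natCast]; omega
  have h3 := Finset.sum_le_card_nsmul _ _ _ h2
  rw [Nat.card_Ico] at h3
  simp only [smul_eq_mul, mul_one] at h3
  omega

lemma Q_zero {N : ℕ} (h : 0 < N) : Q N 0 = ascPochhammer ℕ N := by
  obtain ⟨n, rfl⟩ : ∃ n, N = n + 1 := ⟨N - 1, by omega⟩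
  have h1 : ∀ m, ascPochhammer ℕ m = ∏ j ∈ Finset.range m, (X + (j : ℕ[X])) := by
    intro m
    induction m with
    | zero => simp
    | succ m ih => rw [ascPochhammer_succ_right, Finset.prod_range_succ, ih]
  rw [h1, Finset.range_eq_Ico, Finset.prod_eq_prod_Ico_succ_bot (by omega)]
  simp [Q]

lemma natDegree_asc (n : ℕ) : (ascPochhammer ℕ n).natDegree ≤ n := by
  induction n with
  | zero => simp
  | succ n ih =>
    rw [ascPochhammer_succ_right]
    refine natDegree_mul_le.trans ?_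
    have : (X + (n : ℕ[X]) : ℕ[X]).natDegree ≤ 1 := by
      refine natDegree_add_le_of_degree_le natDegree_X.le ?_
      rw [natDegree_natCast]; omega
    omega

/-- the algebraic inequality -/
lemma main_ineq (hM : ∀ a b, a + b + 1 ≤ N → M (a + 1) b ≤ M a (b + 1) + M a b) (hD : N < D)
    (n : ℕ) (hn : N = n + 1) :
    B M D (ascPochhammer ℕ N) 1 ≤ N * B M D (ascPochhammer ℕ n) 1 +
      B M D 1 (ascPochhammer ℕ N) := by
  have hG : ∀ i, i + 1 < N → B M D (ascPochhammer ℕ (i + 1)) (Q N (i + 1)) ≤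
      B M D (ascPochhammer ℕ i) (Q N i) := by
    intro i hi
    have h1 := B_step hM hD (ascPochhammer ℕ i) (Q N (i + 1)) (by
      have h2 := natDegree_asc i
      have h3 := natDegree_Q (N := N) (i := i + 1) hi
      omega)
    rw [Q_succ hi, ascPochhammer_succ_right, mul_add, B_add_left, mul_comm _ ((i : ℕ[X])),
      B_nat_left]
    have h2 : Q N (i + 1) * (X + ((i + 1 : ℕ) : ℕ[X])) =
        Q N (i + 1) * (X + 1) + (i : ℕ[X]) * Q N (i + 1) := by
      push_cast; ring
    rw [h2, B_add_right, B_nat_right]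
    linarith
  have hG2 : ∀ i, i < N → B M D (ascPochhammer ℕ i) (Q N i) ≤ B M D 1 (ascPochhammer ℕ N) := by
    intro i
    induction i with
    | zero =>
      intro h
      rw [Q_zero h, ascPochhammer_zero]
    | succ i ih => intro h; exact (hG i h).trans (ih (by omega))
  have h3 := hG2 n (by omega)
  have hQ : Q N n = X := by
    unfold Q; rw [hn, Finset.Ico_self, Finset.prod_empty, mul_one]
  rw [hQ] at h3
  have h4 := B_step hM hD (ascPochhammer ℕ n) 1 (by
    have h2 := natDegree_asc n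
    rw [natDegree_one]
    omega)
  rw [one_mul, B_add_right] at h4
  have h5 : ascPochhammer ℕ N = ascPochhammer ℕ n * X + (n : ℕ[X]) * ascPochhammer ℕ n := by
    rw [hn, ascPochhammer_succ_right]; ring
  have h6 : B M D (ascPochhammer ℕ N) 1 = B M D (ascPochhammer ℕ n * X) 1 +
      n * B M D (ascPochhammer ℕ n) 1 := by
    rw [h5, B_add_left, B_nat_left]
  have h7 : (N : ℝ) = n + 1 := by rw [hn]; push_cast; ring
  rw [h6, h7]
  linarith

lemma B_one_right (p : ℕ[X]) (hD : 0 < D) :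
    B M D p 1 = ∑ a ∈ Finset.range D, (p.coeff a : ℝ) * M a 0 := by
  unfold B
  refine Finset.sum_congr rfl fun a _ => ?_
  rw [Finset.sum_eq_single 0]
  · simp
  · intro b _ hb
    simp [coeff_one, hb]
  · intro h
    exact absurd (Finset.mem_range.mpr hD) h

lemma B_one_left (p : ℕ[X]) (hD : 0 < D) :
    B M D 1 p = ∑ b ∈ Finset.range D, (p.coeff b : ℝ) * M 0 b := by
  unfold B
  rw [Finset.sum_eq_single 0]
  · simp
  · intro b _ hb
    simp [coeff_one, hb]
  · intro h
    exact absurd (Finset.mem_range.mpr hD) h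

end Pool.Agent.TH206.Lech
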