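import Pool.Agent.TH206.Lech.Mixed
import Pool.Agent.TH206.Lech.Closure
import Pool.Agent.TH206.Lech.PolyIneq

set_option autoImplicit false

namespace Pool.Agent.TH206.Lech

open Module

universe u v

variable {k : Type v} [Field k] {R : Type u} [CommRing R] [Algebra k R]
variable [IsLocalRing R] {N : ℕ} {x : Fin N → R}

/-- mixed multiplicities of `K`, `K'` and the linear forms, as infima of colengths -/
noncomputable def E2 (k : Type v) [Field k] [Algebra k R] (K K' : Ideal R) (V : Submodule k R)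
    (N a b : ℕ) : ℝ :=
  ⨅ r : ℕ, (m3 k (K ^ (r + 1)) (K' ^ (r + 1)) V a b (N - a - b) : ℝ) / ((r + 1 : ℕ) : ℝ) ^ (a + b)

/-- mixed multiplicities of `K` and the linear forms -/
noncomputable def E1 (k : Type v) [Field k] [Algebra k R] (K : Ideal R) (V : Submodule k R)
    (N a : ℕ) : ℝ := E2 k K ⊤ V N a 0

variable {K K' : Ideal R} {V : Submodule k R}

lemma E2_bdd (a b : ℕ) : BddBelow (Set.range fun r : ℕ =>
    (m3 k (K ^ (r + 1)) (K' ^ (r + 1)) V a b (N - a - b) : ℝ) / ((r + 1 : ℕ) : ℝ) ^ (a + b)) := by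
  refine ⟨0, ?_⟩
  rintro _ ⟨r, rfl⟩
  positivity

lemma E2_nonneg (a b : ℕ) : 0 ≤ E2 k K K' V N a b := by
  apply le_ciInf
  intro r
  positivity

lemma E2_le (a b r : ℕ) (hr : 1 ≤ r) :
    E2 k K K' V N a b ≤ (m3 k (K ^ r) (K' ^ r) V a b (N - a - b) : ℝ) / (r : ℝ) ^ (a + b) := by
  obtain ⟨r, rfl⟩ : ∃ r', r = r' + 1 := ⟨r - 1, by omega⟩
  exact ciInf_le (E2_bdd a b) r

lemma E2_right {K'' : Ideal R} (a : ℕ) : E2 k K K' V N a 0 = E2 k K K'' V N a 0 := by
  unfold E2
  congr 1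
  funext r
  rw [m3_zero_right (B' := K'' ^ (r + 1))]

lemma E2_a_zero (a : ℕ) : E2 k K K' V N a 0 = E1 k K V N a := E2_right a

lemma E2_zero_b (b : ℕ) : E2 k K K' V N 0 b = E1 k K' V N b := by
  unfold E1 E2
  congr 1
  funext r
  rw [m3_swap, m3_zero_right (B' := (⊤ : Ideal R) ^ (r + 1))]
  simp

/-- near-optimal exponents, closed under multiples -/
lemma E2_approx (S : Setting k R x) (hK : Cof K) (hK' : Cof K') (a b : ℕ) (hab : a + b ≤ N)
    (ε : ℝ) (hε : 0 < ε) :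
    ∃ r : ℕ, 1 ≤ r ∧ ∀ s : ℕ, 1 ≤ s →
      (m3 k (K ^ (r * s)) (K' ^ (r * s)) (Submodule.span k (Set.range x)) a b (N - a - b) : ℝ) /
        ((r * s : ℕ) : ℝ) ^ (a + b) <
      E2 k K K' (Submodule.span k (Set.range x)) N a b + ε := by
  obtain ⟨r, hr⟩ := exists_lt_of_ciInf_lt (lt_add_of_pos_right
    (E2 k K K' (Submodule.span k (Set.range x)) N a b) hε)
  refine ⟨r + 1, by omega, fun s hs => ?_⟩
  refine lt_of_le_of_lt ?_ hr
  have hne := m3set_nonempty S (hK.pow (r + 1)) (hK'.pow (r + 1)) (a := a) (b := b)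
    (c := N - a - b) (by omega)
  have h1 := (m3_pow S s (A' := K ^ ((r + 1) * s)) (B' := K' ^ ((r + 1) * s))
    (fun u hu => by rw [pow_mul]; exact Ideal.pow_mem_pow hu s)
    (fun u hu => by rw [pow_mul]; exact Ideal.pow_mem_pow hu s) hne).2
  have hs' : (0 : ℝ) < (s : ℝ) ^ (a + b) := by positivity
  have hr' : (0 : ℝ) < ((r + 1 : ℕ) : ℝ) ^ (a + b) := by positivity
  rw [div_le_div_iff₀ (by positivity) hr']
  have h2 : (m3 k (K ^ ((r + 1) * s)) (K' ^ ((r + 1) * s)) (Submodule.span k (Set.range x)) a b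
      (N - a - b) : ℝ) ≤ (s : ℝ) ^ (a + b) *
      m3 k (K ^ (r + 1)) (K' ^ (r + 1)) (Submodule.span k (Set.range x)) a b (N - a - b) := by
    exact_mod_cast h1
  calc _ ≤ ((s : ℝ) ^ (a + b) *
      m3 k (K ^ (r + 1)) (K' ^ (r + 1)) (Submodule.span k (Set.range x)) a b (N - a - b)) *
      ((r + 1 : ℕ) : ℝ) ^ (a + b) := mul_le_mul_of_nonneg_right h2 hr'.le
    _ = _ := by push_cast; rw [mul_pow]; ring

/-- the basic inequality for mixed multiplicities -/
lemma E2_key [Infinite k] (S : Setting k R x) (hK : Cof K) (hK' : Cof K')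
    (hKK' : ∀ v ∈ Submodule.span k (Set.range x), ∀ g ∈ K', g * v ∈ K) (a b : ℕ)
    (hab : a + b + 1 ≤ N) :
    E2 k K K' (Submodule.span k (Set.range x)) N (a + 1) b ≤
      E2 k K K' (Submodule.span k (Set.range x)) N a (b + 1) +
      E2 k K K' (Submodule.span k (Set.range x)) N a b := by
  refine le_of_forall_pos_le_add fun ε hε => ?_
  obtain ⟨r₁, hr₁, h₁⟩ := E2_approx S hK hK' a (b + 1) (by omega) (ε / 2) (by linarith)
  obtain ⟨r₂, hr₂, h₂⟩ := E2_approx S hK hK' a b (by omega) (ε / 2) (by linarith)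
  have h₁' := h₁ r₂ hr₂
  have h₂' := h₂ r₁ hr₁
  rw [mul_comm r₂ r₁] at h₂'
  set r := r₁ * r₂ with hr
  have hr0 : 1 ≤ r := Nat.mul_pos hr₁ hr₂
  have hc : N - a - b = (N - a - (b + 1)) + 1 := by omega
  have hc' : N - (a + 1) - b = N - a - (b + 1) := by omega
  have hmul : ∀ v ∈ Submodule.span k (Set.range x), ∀ g ∈ K' ^ r, g * v ^ r ∈ K ^ r := by
    intro v hv g hg
    have h3 : K' * Ideal.span {v} ≤ K := by
      rw [Ideal.mul_le]
      intro g hg w hw
      obtain ⟨z, rfl⟩ := Ideal.mem_span_singleton'.mp hw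
      have := K.mul_mem_left z (hKK' v hv g hg)
      convert this using 1
      ring
    have h4 : (K' * Ideal.span {v}) ^ r ≤ K ^ r := Ideal.pow_right_mono h3 r
    have h5 : g * v ^ r ∈ K' ^ r * Ideal.span {v} ^ r :=
      Ideal.mul_mem_mul hg (Ideal.pow_mem_pow (Ideal.mem_span_singleton_self v) r)
    rw [← mul_pow] at h5
    exact h4 h5
  have hk := (m3_key S r hmul
    (m3set_nonempty S (hK.pow r) (hK'.pow r) (a := a) (b := b + 1) (c := N - a - (b + 1))
      (by omega))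
    (m3set_nonempty S (hK.pow r) (hK'.pow r) (a := a) (b := b) (c := N - a - (b + 1) + 1)
      (by omega))).2
  rw [← hc] at hk
  have hE := E2_le (k := k) (K := K) (K' := K') (V := Submodule.span k (Set.range x)) (N := N)
    (a + 1) b r hr0
  rw [hc'] at hE
  have hrr : (0 : ℝ) < (r : ℝ) := by exact_mod_cast hr0
  have hk' : (m3 k (K ^ r) (K' ^ r) (Submodule.span k (Set.range x)) (a + 1) b
      (N - a - (b + 1)) : ℝ) ≤
      m3 k (K ^ r) (K' ^ r) (Submodule.span k (Set.range x)) a (b + 1) (N - a - (b + 1)) +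
      r * m3 k (K ^ r) (K' ^ r) (Submodule.span k (Set.range x)) a b (N - a - b) := by
    exact_mod_cast hk
  have h5 : (m3 k (K ^ r) (K' ^ r) (Submodule.span k (Set.range x)) (a + 1) b
      (N - a - (b + 1)) : ℝ) / (r : ℝ) ^ (a + 1 + b) ≤
      m3 k (K ^ r) (K' ^ r) (Submodule.span k (Set.range x)) a (b + 1) (N - a - (b + 1)) /
        (r : ℝ) ^ (a + (b + 1)) +
      m3 k (K ^ r) (K' ^ r) (Submodule.span k (Set.range x)) a b (N - a - b) /
        (r : ℝ) ^ (a + b) := by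
    have e1 : (r : ℝ) ^ (a + 1 + b) = (r : ℝ) ^ (a + b) * r := by
      rw [← pow_succ]; congr 1; omega
    have e2 : (r : ℝ) ^ (a + (b + 1)) = (r : ℝ) ^ (a + b) * r := by
      rw [← pow_succ]; congr 1
    rw [e1, e2]
    have e3 : (m3 k (K ^ r) (K' ^ r) (Submodule.span k (Set.range x)) a b (N - a - b) : ℝ) /
        (r : ℝ) ^ (a + b) =
        (r * m3 k (K ^ r) (K' ^ r) (Submodule.span k (Set.range x)) a b (N - a - b)) /
        ((r : ℝ) ^ (a + b) * r) := by
      rw [mul_comm ((r : ℝ) ^ (a + b)), mul_div_mul_left _ _ hrr.ne']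
    rw [e3, ← add_div]
    exact div_le_div_of_nonneg_right hk' (by positivity)
  linarith

end Pool.Agent.TH206.Lech
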