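import Pool.Agent.TH206.Lech.EFun

set_option autoImplicit false

namespace Pool.Agent.TH206.Lech

open Module Filter

universe u v

variable {k : Type v} [Field k] {R : Type u} [CommRing R] [Algebra k R]
variable [IsLocalRing R] {N : ℕ} {x : Fin N → R}

lemma E1_top (S : Setting k R x) (a : ℕ) (ha : a + 1 ≤ N) :
    E1 k (⊤ : Ideal R) (Submodule.span k (Set.range x)) N (a + 1) = 0 := by
  apply le_antisymm _ (E2_nonneg _ _)
  have h1 := E2_le (k := k) (K := (⊤ : Ideal R)) (K' := ⊤)
    (V := Submodule.span k (Set.range x)) (N := N) (a + 1) 0 1 le_rfl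
  have h2 : m3 k ((⊤ : Ideal R) ^ 1) ((⊤ : Ideal R) ^ 1) (Submodule.span k (Set.range x))
      (a + 1) 0 (N - (a + 1) - 0) = 0 := by
    rw [pow_one]
    exact m3_top (m3set_nonempty S cof_top cof_top (by omega))
  rw [h2] at h1
  simpa using h1

lemma E1_closure (S : Setting k R x) {K K' : Ideal R} (hK' : Cof K')
    (hint : Int K K') (a : ℕ) (ha : a ≤ N) :
    E1 k K (Submodule.span k (Set.range x)) N a ≤
      E1 k K' (Submodule.span k (Set.range x)) N a := by
  obtain ⟨s, hs⟩ := hint
  refine le_ciInf fun r => ?_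
  set r₀ := r + 1 with hr₀
  set C : ℝ := (m3 k (K' ^ r₀) ((⊤ : Ideal R) ^ r₀) (Submodule.span k (Set.range x)) a 0
    (N - a - 0) : ℝ) / ((r₀ : ℕ) : ℝ) ^ (a + 0) with hC
  have hr0 : (0 : ℝ) < (r₀ : ℝ) := by positivity
  have key : ∀ j : ℕ, E1 k K (Submodule.span k (Set.range x)) N a ≤
      (1 + s * (1 / ((j : ℝ) + 1))) ^ a * C := by
    intro j
    have hj1 : 1 ≤ (j + 1) * r₀ := Nat.mul_pos (by omega) (by omega)
    have h1 := E2_le (k := k) (K := K) (K' := ⊤)
      (V := Submodule.span k (Set.range x)) (N := N) a 0 ((j + 1) * r₀) hj1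
    have hle : K' ^ ((j + 1 + s) * r₀) ≤ K ^ ((j + 1) * r₀) := by
      refine (Ideal.pow_le_pow_right ?_).trans (hs ((j + 1) * r₀))
      rw [add_mul (j + 1) s r₀]
      have : s * 1 ≤ s * r₀ := Nat.mul_le_mul_left s (by omega)
      omega
    have hne := m3set_nonempty S (hK'.pow r₀) (cof_top.pow r₀) (a := a) (b := 0)
      (c := N - a - 0) (by omega)
    have h2 := m3_pow S (j + 1 + s) (A' := K' ^ ((j + 1 + s) * r₀))
      (B' := (⊤ : Ideal R) ^ ((j + 1) * r₀))
      (fun u hu => by
        rw [mul_comm, pow_mul]; exact Ideal.pow_mem_pow hu _)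
      (fun u hu => by rw [Ideal.top_pow]; trivial) hne
    have h3 : m3 k (K ^ ((j + 1) * r₀)) ((⊤ : Ideal R) ^ ((j + 1) * r₀))
        (Submodule.span k (Set.range x)) a 0 (N - a - 0) ≤
        (j + 1 + s) ^ (a + 0) * m3 k (K' ^ r₀) ((⊤ : Ideal R) ^ r₀)
        (Submodule.span k (Set.range x)) a 0 (N - a - 0) :=
      (m3_mono hle le_rfl h2.1).trans h2.2
    have h4 : (m3 k (K ^ ((j + 1) * r₀)) ((⊤ : Ideal R) ^ ((j + 1) * r₀))
        (Submodule.span k (Set.range x)) a 0 (N - a - 0) : ℝ) ≤
        ((j : ℝ) + 1 + s) ^ (a + 0) * m3 k (K' ^ r₀) ((⊤ : Ideal R) ^ r₀)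
        (Submodule.span k (Set.range x)) a 0 (N - a - 0) := by exact_mod_cast h3
    refine h1.trans ?_
    have hj : (0 : ℝ) < (j : ℝ) + 1 := by positivity
    have h5 : (1 + s * (1 / ((j : ℝ) + 1))) ^ a * C =
        (((j : ℝ) + 1 + s) ^ (a + 0) * m3 k (K' ^ r₀) ((⊤ : Ideal R) ^ r₀)
        (Submodule.span k (Set.range x)) a 0 (N - a - 0)) /
        (((j + 1) * r₀ : ℕ) : ℝ) ^ (a + 0) := by
      have e1 : (1 + s * (1 / ((j : ℝ) + 1))) = ((j : ℝ) + 1 + s) / ((j : ℝ) + 1) := by
        field_simp
      rw [e1, hC, div_pow, add_zero]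
      push_cast
      rw [mul_pow, div_mul_div_comm]
    rw [h5]
    exact div_le_div_of_nonneg_right h4 (by positivity)
  have hlim : Tendsto (fun j : ℕ => (1 + s * (1 / ((j : ℝ) + 1))) ^ a * C) atTop
      (nhds ((1 + s * 0) ^ a * C)) := by
    refine Tendsto.mul_const C (Tendsto.pow ?_ a)
    refine Tendsto.const_add 1 (Tendsto.const_mul (s : ℝ) ?_)
    exact tendsto_one_div_add_atTop_nhds_zero_nat
  rw [mul_zero, add_zero, one_pow, one_mul] at hlim
  exact ge_of_tendsto' hlim key

section quot

variable {x : Fin (N + 1) → R} {R' : Type u} [CommRing R'] [Algebra k R'] [IsLocalRing R']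

omit [IsLocalRing R] [IsLocalRing R'] in
lemma image_t (φ : R →ₐ[k] R') (c : Fin (N + 1) → k) (t : Fin (N + 1)) (ht : c t ≠ 0)
    (hℓ : φ (∑ i, c i • x i) = 0) :
    φ (x t) ∈ Submodule.span k (Set.range fun j : Fin N => φ (x (t.succAbove j))) := by
  rw [Fin.sum_univ_succAbove _ t, map_add, map_smul, map_sum] at hℓ
  have h1 : φ (x t) = -((c t)⁻¹ • ∑ j, φ (c (t.succAbove j) • x (t.succAbove j))) := by
    have h2 : c t • φ (x t) = -∑ j, φ (c (t.succAbove j) • x (t.succAbove j)) :=
      eq_neg_of_add_eq_zero_left hℓ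
    have h3 := congrArg (fun y => (c t)⁻¹ • y) h2
    simp only [smul_smul, inv_mul_cancel₀ ht, one_smul, smul_neg] at h3
    exact h3
  rw [h1]
  refine Submodule.neg_mem _ (Submodule.smul_mem _ _ (Submodule.sum_mem _ fun j _ => ?_))
  rw [map_smul]
  exact Submodule.smul_mem _ _ (Submodule.subset_span ⟨j, rfl⟩)

omit [IsLocalRing R] [IsLocalRing R'] in
lemma map_span_V (φ : R →ₐ[k] R') (c : Fin (N + 1) → k) (t : Fin (N + 1)) (ht : c t ≠ 0)
    (hℓ : φ (∑ i, c i • x i) = 0) :
    (Submodule.span k (Set.range x)).map φ.toLinearMap =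
      Submodule.span k (Set.range fun j : Fin N => φ (x (t.succAbove j))) := by
  rw [Submodule.map_span]
  apply le_antisymm
  · rw [Submodule.span_le]
    rintro _ ⟨_, ⟨i, rfl⟩, rfl⟩
    by_cases hi : i = t
    · rw [hi]; exact image_t φ c t ht hℓ
    · obtain ⟨j, rfl⟩ := Fin.exists_succAbove_eq hi
      exact Submodule.subset_span ⟨j, rfl⟩
  · rw [Submodule.span_le]
    rintro _ ⟨j, rfl⟩
    exact Submodule.subset_span ⟨_, ⟨_, rfl⟩, rfl⟩

lemma Setting.quot (S : Setting k R x) (φ : R →ₐ[k] R') (hφ : Function.Surjective φ)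
    (c : Fin (N + 1) → k) (t : Fin (N + 1)) (ht : c t ≠ 0) (hℓ : φ (∑ i, c i • x i) = 0) :
    Setting k R' (fun j : Fin N => φ (x (t.succAbove j))) := by
  constructor
  · rw [← map_max φ hφ, S.span_eq, Ideal.map_span]
    apply le_antisymm
    · rw [Ideal.span_le]
      rintro _ ⟨_, ⟨i, rfl⟩, rfl⟩
      by_cases hi : i = t
      · have h1 := image_t φ c t ht hℓ
        rw [hi]
        exact Submodule.span_le_restrictScalars k R' _ h1
      · obtain ⟨j, rfl⟩ := Fin.exists_succAbove_eq hi
        exact Ideal.subset_span ⟨j, rfl⟩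
    · rw [Ideal.span_le]
      rintro _ ⟨j, rfl⟩
      exact Ideal.subset_span ⟨_, ⟨_, rfl⟩, rfl⟩
  · intro r
    obtain ⟨r, rfl⟩ := hφ r
    obtain ⟨a, ha⟩ := S.resid r
    refine ⟨a, ?_⟩
    rw [← map_max φ hφ]
    have := Ideal.mem_map_of_mem φ ha
    rwa [map_sub, AlgHom.commutes] at this

lemma E1_quot (S : Setting k R x) (φ : R →ₐ[k] R') (hφ : Function.Surjective φ)
    (c : Fin (N + 1) → k) (t : Fin (N + 1)) (ht : c t ≠ 0)
    (hker : RingHom.ker φ = Ideal.span {∑ i, c i • x i}) {I : Ideal R} (hI : Cof I) (a : ℕ)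
    (ha : a ≤ N) :
    E1 k I (Submodule.span k (Set.range x)) (N + 1) a ≤
      E1 k (I.map φ) (Submodule.span k (Set.range fun j : Fin N => φ (x (t.succAbove j)))) N a := by
  have hℓ : φ (∑ i, c i • x i) = 0 := by
    have : (∑ i, c i • x i) ∈ RingHom.ker φ := by
      rw [hker]; exact Ideal.mem_span_singleton_self _
    exact this
  have S' := S.quot φ hφ c t ht hℓ
  refine le_ciInf fun r => ?_
  have h1 := E2_le (k := k) (K := I) (K' := ⊤)
      (V := Submodule.span k (Set.range x)) (N := N + 1) a 0 (r + 1) (by omega)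
  refine h1.trans ?_
  refine div_le_div_of_nonneg_right ?_ (by positivity)
  have hc : N + 1 - a - 0 = (N - a - 0) + 1 := by omega
  rw [hc]
  have hne := m3set_nonempty S' ((cof_map φ hφ hI).pow (r + 1)) (cof_top.pow (r + 1)) (a := a)
    (b := 0) (c := N - a - 0) (by omega)
  have hV := map_span_V φ c t ht hℓ
  have h2 := m3_quot φ hφ hker (A := I ^ (r + 1)) (B := (⊤ : Ideal R) ^ (r + 1))
    (V := Submodule.span k (Set.range x)) (a := a) (b := 0) (c := N - a - 0)
    (Submodule.sum_mem _ fun i _ => Submodule.smul_mem _ _ (Submodule.subset_span ⟨i, rfl⟩))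
    (by rw [hV, Ideal.map_pow, Ideal.map_pow, Ideal.map_top]; exact hne)
  rw [hV, Ideal.map_pow, Ideal.map_pow, Ideal.map_top] at h2
  exact_mod_cast h2

end quot

/-- The refined Lech inequality in the general setting. -/
theorem main_aux (k : Type v) [Field k] [Infinite k] : ∀ (N : ℕ) (R : Type u) [CommRing R]
    [Algebra k R] [IsLocalRing R] (x : Fin N → R), Setting k R x → ∀ (n : ℕ) (I : Ideal R),
    Cof I → I ≠ ⊤ → cl k I = n →
    ∑ a ∈ Finset.range (N + 1), ((ascPochhammer ℕ N).coeff a : ℝ) *
      E1 k I (Submodule.span k (Set.range x)) N a ≤ (N.factorial : ℝ) * n := by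
  intro N
  induction N with
  | zero =>
    intro R _ _ _ x S n I hI hne hn
    have hm : IsLocalRing.maximalIdeal R = ⊥ := by
      rw [S.span_eq, Set.range_eq_empty, Ideal.span_empty]
    have hI0 : I = ⊥ := by
      rw [eq_bot_iff, ← hm]
      exact IsLocalRing.le_maximalIdeal hne
    have h1 := E2_le (k := k) (K := I) (K' := ⊤)
      (V := Submodule.span k (Set.range x)) (N := 0) 0 0 1 le_rfl
    have h2 : m3 k (I ^ 1) ((⊤ : Ideal R) ^ 1) (Submodule.span k (Set.range x)) 0 0 (0 - 0 - 0) ≤
        cl k I := by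
      have h3 : J3 (fun i : Fin 0 => (i.elim0 : R)) (fun i : Fin 0 => (i.elim0 : R))
          (fun i : Fin 0 => (i.elim0 : R)) = (⊥ : Ideal R) := by
        unfold J3
        rw [Set.range_eq_empty, Ideal.span_empty]
        simp
      rw [hI0, ← h3]
      exact m3_le (fun i => i.elim0) (fun i => i.elim0) (fun i => i.elim0)
        (by rw [h3]; exact ⟨1, by rw [pow_one, hm]⟩)
    have h4 : (m3 k (I ^ 1) ((⊤ : Ideal R) ^ 1) (Submodule.span k (Set.range x)) 0 0
        (0 - 0 - 0) : ℝ) ≤ n := by rw [← hn]; exact_mod_cast h2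
    simp only [zero_add, Finset.range_one, Finset.sum_singleton, ascPochhammer_zero,
      Polynomial.coeff_one_zero, Nat.cast_one, one_mul, Nat.factorial_zero]
    refine h1.trans ?_
    simpa using h4
  | succ N ihN =>
    intro R _ _ _ x S n
    induction n using Nat.strong_induction_on with
    | _ n ihn =>
      intro I hI hne hn
      by_cases hcl : Closed I
      · obtain ⟨c, hc0, hcc⟩ := S.exists_form (Nat.succ_pos N) hI hcl
        obtain ⟨t, ht⟩ : ∃ t, c t ≠ 0 := by
          by_contra hcon
          push Not at hcon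
          exact hc0 (funext hcon)
        set ℓ : R := ∑ i, c i • x i with hℓ
        have hVm : ∀ v ∈ Submodule.span k (Set.range x), v ∈ IsLocalRing.maximalIdeal R := by
          intro v hv
          rw [S.span_eq]
          exact Submodule.span_le_restrictScalars k R _ hv
        have hℓV : ℓ ∈ Submodule.span k (Set.range x) :=
          Submodule.sum_mem _ fun i _ => Submodule.smul_mem _ _ (Submodule.subset_span ⟨i, rfl⟩)
        have hℓm := hVm ℓ hℓV
        have hfin := S.finite_of_cof hI
        -- the quotient ring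
        have hspan : Ideal.span {ℓ} ≤ IsLocalRing.maximalIdeal R := by
          rwa [Ideal.span_singleton_le_iff_mem]
        have hnt : Nontrivial (R ⧸ Ideal.span {ℓ}) := by
          refine Ideal.Quotient.nontrivial_iff.mpr fun h => ?_
          rw [h] at hspan
          exact (IsLocalRing.maximalIdeal.isMaximal R).ne_top (top_le_iff.mp hspan)
        have hloc : IsLocalRing (R ⧸ Ideal.span {ℓ}) :=
          IsLocalRing.of_surjective' (Ideal.Quotient.mk _) Ideal.Quotient.mk_surjective
        let φ : R →ₐ[k] (R ⧸ Ideal.span {ℓ}) := Ideal.Quotient.mkₐ k _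
        have hφ : Function.Surjective φ := Ideal.Quotient.mkₐ_surjective k _
        have hker : RingHom.ker φ = Ideal.span {∑ i, c i • x i} := Ideal.Quotient.mkₐ_ker k _
        have hℓ0 : φ (∑ i, c i • x i) = 0 := by
          have : (∑ i, c i • x i) ∈ RingHom.ker φ := by
            rw [hker]; exact Ideal.mem_span_singleton_self _
          exact this
        have S' := S.quot φ hφ c t ht hℓ0
        have hcomap : (I.map φ).comap φ = I ⊔ Ideal.span {ℓ} := by
          rw [Ideal.comap_map_of_surjective' φ hφ, hker]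
        have hIℓ : I ⊔ Ideal.span {ℓ} ≠ ⊤ := by
          intro h
          have h1 : I ⊔ Ideal.span {ℓ} ≤ IsLocalRing.maximalIdeal R :=
            sup_le (IsLocalRing.le_maximalIdeal hne) hspan
          rw [h] at h1
          exact (IsLocalRing.maximalIdeal.isMaximal R).ne_top (top_le_iff.mp h1)
        have hI'ne : I.map φ ≠ ⊤ := by
          intro h
          rw [h, Ideal.comap_top] at hcomap
          exact hIℓ hcomap.symm
        have hI'cl : cl k (I.map φ) = cl k (I ⊔ Ideal.span {ℓ}) := by
          rw [← hcomap, cl_comap φ hφ]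
        have h1 := ihN (R ⧸ Ideal.span {ℓ}) _ S' _ (I.map φ) (cof_map φ hφ hI) hI'ne rfl
        have h2 : ∑ a ∈ Finset.range (N + 1), ((ascPochhammer ℕ N).coeff a : ℝ) *
            E1 k I (Submodule.span k (Set.range x)) (N + 1) a ≤
            (N.factorial : ℝ) * cl k (I ⊔ Ideal.span {ℓ}) := by
          rw [← hI'cl]
          refine le_trans (Finset.sum_le_sum fun a ha => ?_) h1
          refine mul_le_mul_of_nonneg_left ?_ (Nat.cast_nonneg _)
          exact E1_quot S φ hφ c t ht hker hI a (by have := Finset.mem_range.mp ha; omega)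
        -- the colon ideal
        have hK' : Cof (col I ℓ) := hI.mono (le_col I ℓ)
        have hsum := cl_add (k := k) I ℓ
        have hpos : 0 < cl k (I ⊔ Ideal.span {ℓ}) := by
          have := finite_sup (k := k) I (Ideal.span {ℓ})
          exact cl_pos hIℓ
        have h3 : ∑ b ∈ Finset.range (N + 1 + 1), ((ascPochhammer ℕ (N + 1)).coeff b : ℝ) *
            E1 k (col I ℓ) (Submodule.span k (Set.range x)) (N + 1) b ≤
            ((N + 1).factorial : ℝ) * cl k (col I ℓ) := by
          by_cases htop : col I ℓ = ⊤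
          · rw [htop, cl_top]
            refine le_of_eq ?_
            rw [Nat.cast_zero, mul_zero]
            refine Finset.sum_eq_zero fun b hb => ?_
            rcases b with _ | b
            · have : (ascPochhammer ℕ (N + 1)).coeff 0 = 0 := by
                rw [ascPochhammer_succ_left, Polynomial.coeff_X_mul_zero]
              rw [this, Nat.cast_zero, zero_mul]
            · rw [E1_top S b (by have := Finset.mem_range.mp hb; omega), mul_zero]
          · exact ihn _ (by omega) (col I ℓ) hK' htop rfl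
        -- the algebraic inequality
        have hM := fun (a b : ℕ) (hab : a + b + 1 ≤ N + 1) =>
          E2_key S hI hK' (fun v hv g hg => by
            have := hcc g hg v (hVm v hv)
            rwa [mul_comm] at this) a b hab
        have h4 := main_ineq (M := fun a b => E2 k I (col I ℓ)
          (Submodule.span k (Set.range x)) (N + 1) a b) (D := N + 1 + 1) hM
          (Nat.lt_succ_self _) N rfl
        rw [B_one_right _ (Nat.succ_pos _), B_one_right _ (Nat.succ_pos _),
          B_one_left _ (Nat.succ_pos _)] at h4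
        simp only [E2_a_zero, E2_zero_b] at h4
        rw [Finset.sum_range_succ (n := N + 1) (f := fun a =>
          ((ascPochhammer ℕ N).coeff a : ℝ) *
            E1 k I (Submodule.span k (Set.range x)) (N + 1) a)] at h4
        have h5 : (ascPochhammer ℕ N).coeff (N + 1) = 0 :=
          Polynomial.coeff_eq_zero_of_natDegree_lt (by have := natDegree_asc N; omega)
        rw [h5, Nat.cast_zero, zero_mul, add_zero] at h4
        refine h4.trans ?_
        have h6 : ((N + 1 : ℕ) : ℝ) * ∑ a ∈ Finset.range (N + 1),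
            ((ascPochhammer ℕ N).coeff a : ℝ) *
              E1 k I (Submodule.span k (Set.range x)) (N + 1) a ≤
            ((N + 1 : ℕ) : ℝ) * ((N.factorial : ℝ) * cl k (I ⊔ Ideal.span {ℓ})) :=
          mul_le_mul_of_nonneg_left h2 (Nat.cast_nonneg _)
        have h7 : ((N + 1).factorial : ℝ) * n = ((N + 1 : ℕ) : ℝ) * ((N.factorial : ℝ) *
            cl k (I ⊔ Ideal.span {ℓ})) + ((N + 1).factorial : ℝ) * cl k (col I ℓ) := by
          rw [← hn, hsum, Nat.factorial_succ]
          push_cast
          ring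
        rw [h7]
        exact add_le_add h6 h3
      · unfold Closed at hcl
        push Not at hcl
        obtain ⟨K, hIK, hint, hnot⟩ := hcl
        have hfin := S.finite_of_cof hI
        have hK : Cof K := hI.mono hIK
        have hKne : K ≠ ⊤ := by
          rintro rfl
          obtain ⟨s, hs⟩ := hint
          have h1 := hs 1
          rw [Ideal.top_pow, pow_one] at h1
          exact hne (top_le_iff.mp h1)
        have hlt : cl k K < n := by
          rcases (cl_anti (k := k) hIK).lt_or_eq with h | h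
          · rwa [hn] at h
          · exact absurd (eq_of_cl_eq hIK h.symm).ge hnot
        have h1 := ihn _ hlt K hK hKne rfl
        have h2 : ∑ a ∈ Finset.range (N + 1 + 1), ((ascPochhammer ℕ (N + 1)).coeff a : ℝ) *
            E1 k I (Submodule.span k (Set.range x)) (N + 1) a ≤
            ∑ a ∈ Finset.range (N + 1 + 1), ((ascPochhammer ℕ (N + 1)).coeff a : ℝ) *
            E1 k K (Submodule.span k (Set.range x)) (N + 1) a := by
          refine Finset.sum_le_sum fun a ha => ?_
          refine mul_le_mul_of_nonneg_left ?_ (Nat.cast_nonneg _)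
          exact E1_closure S hK hint a (by have := Finset.mem_range.mp ha; omega)
        refine h2.trans (h1.trans ?_)
        refine mul_le_mul_of_nonneg_left ?_ (Nat.cast_nonneg _)
        exact_mod_cast hlt.le

end Pool.Agent.TH206.Lech
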