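import Pool.Agent.TH206.Lech.Semi

set_option autoImplicit false

namespace Pool.Agent.TH206.Lech

open Module

universe u v

variable {k : Type v} [Field k] {R : Type u} [CommRing R] [Algebra k R]
variable [IsLocalRing R] {N : ℕ} {x : Fin N → R}

lemma exists_good (k : Type v) [Field k] [Infinite k] (P Q : MvPolynomial Unit k)
    (hP : MvPolynomial.eval (fun _ => 0) P ≠ 0) (hQ : MvPolynomial.eval (fun _ => 0) Q ≠ 0) :
    ∃ t : k, MvPolynomial.eval (fun _ => t) P ≠ 0 ∧ MvPolynomial.eval (fun _ => 1 - t) Q ≠ 0 := by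
  let p : Polynomial k := MvPolynomial.aeval (fun _ => Polynomial.X) P
  let q : Polynomial k := MvPolynomial.aeval (fun _ => 1 - Polynomial.X) Q
  have hp : ∀ t : k, p.eval t = MvPolynomial.eval (fun _ => t) P := by
    intro t
    have h1 : (Polynomial.evalRingHom t).comp
        (MvPolynomial.aeval (R := k) (fun _ : Unit => (Polynomial.X : Polynomial k))).toRingHom =
        MvPolynomial.eval (fun _ => t) := by
      apply MvPolynomial.ringHom_ext
      · intro r; simp
      · intro i; simp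
    exact RingHom.congr_fun h1 P
  have hq : ∀ t : k, q.eval t = MvPolynomial.eval (fun _ => 1 - t) Q := by
    intro t
    have h1 : (Polynomial.evalRingHom t).comp
        (MvPolynomial.aeval (R := k) (fun _ : Unit => (1 - Polynomial.X : Polynomial k))).toRingHom =
        MvPolynomial.eval (fun _ => 1 - t) := by
      apply MvPolynomial.ringHom_ext
      · intro r; simp
      · intro i; simp
    exact RingHom.congr_fun h1 Q
  have hp0 : p ≠ 0 := by
    intro h
    apply hP
    rw [← hp 0, h, Polynomial.eval_zero]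
  have hq0 : q ≠ 0 := by
    intro h
    apply hQ
    have := hq 1
    rw [sub_self] at this
    rw [← this, h, Polynomial.eval_zero]
  by_contra hcon
  push Not at hcon
  have h0 : p * q = 0 := by
    apply Polynomial.funext
    intro t
    rw [Polynomial.eval_mul, Polynomial.eval_zero, hp, hq]
    by_cases h : MvPolynomial.eval (fun _ => t) P = 0
    · rw [h, zero_mul]
    · rw [hcon t h, mul_zero]
  rcases mul_eq_zero.mp h0 with h | h
  · exact hp0 h
  · exact hq0 h

omit [Algebra k R] [IsLocalRing R] in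
lemma span_option {ι : Type*} (e : ι → R) (g : R) :
    Ideal.span (Set.range fun o : Option ι => o.elim g e) =
      Ideal.span (Set.range e) ⊔ Ideal.span {g} := by
  have : (Set.range fun o : Option ι => o.elim g e) = insert g (Set.range e) := by
    ext y
    simp only [Set.mem_range, Set.mem_insert_iff]
    constructor
    · rintro ⟨o, rfl⟩
      cases o with
      | none => left; rfl
      | some i => right; exact ⟨i, rfl⟩
    · rintro (rfl | ⟨i, rfl⟩)
      · exact ⟨none, rfl⟩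
      · exact ⟨some i, rfl⟩
  rw [this, Ideal.span_insert, sup_comm]

lemma Setting.interp [Infinite k] (S : Setting k R x) {ι : Type*} [Fintype ι]
    (W : ι → Submodule k R) (e e' : ι → R) (he : ∀ i, e i ∈ W i) (he' : ∀ i, e' i ∈ W i)
    (g g' : R) (h : Cof (Ideal.span (Set.range e) ⊔ Ideal.span {g}))
    (h' : Cof (Ideal.span (Set.range e') ⊔ Ideal.span {g'})) :
    ∃ e'' : ι → R, (∀ i, e'' i ∈ W i) ∧ Cof (Ideal.span (Set.range e'') ⊔ Ideal.span {g}) ∧
      Cof (Ideal.span (Set.range e'') ⊔ Ideal.span {g'}) ∧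
      cl k (Ideal.span (Set.range e'') ⊔ Ideal.span {g}) ≤
        cl k (Ideal.span (Set.range e) ⊔ Ideal.span {g}) ∧
      cl k (Ideal.span (Set.range e'') ⊔ Ideal.span {g'}) ≤
        cl k (Ideal.span (Set.range e') ⊔ Ideal.span {g'}) := by
  have aux : ∀ (e e' : ι → R) (g : R), Cof (Ideal.span (Set.range e) ⊔ Ideal.span {g}) →
      ∃ P : MvPolynomial Unit k, MvPolynomial.eval (fun _ => 0) P ≠ 0 ∧
      ∀ t : k, MvPolynomial.eval (fun _ => t) P ≠ 0 →
        Cof (Ideal.span (Set.range fun i => e i + t • (e' i - e i)) ⊔ Ideal.span {g}) ∧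
        cl k (Ideal.span (Set.range fun i => e i + t • (e' i - e i)) ⊔ Ideal.span {g}) ≤
          cl k (Ideal.span (Set.range e) ⊔ Ideal.span {g}) := by
    intro e e' g h
    rw [← span_option] at h
    obtain ⟨P, hP0, hP⟩ := S.semi (fun o : Option ι => o.elim g e)
      (fun _ : Unit => fun o : Option ι => o.elim 0 (fun i => e' i - e i)) h
    refine ⟨P, hP0, fun t ht => ?_⟩
    have h1 := hP (fun _ => t) ht
    have h2 : (fun i : Option ι => (i.elim g e : R) +
        ∑ s : Unit, t • (i.elim 0 (fun i => e' i - e i) : R)) =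
        fun o : Option ι => o.elim g (fun i => e i + t • (e' i - e i)) := by
      funext o
      cases o <;> simp
    rw [h2, span_option, span_option] at h1
    exact h1
  obtain ⟨P, hP0, hP⟩ := aux e e' g h
  obtain ⟨Q, hQ0, hQ⟩ := aux e' e g' h'
  obtain ⟨t, ht1, ht2⟩ := exists_good k P Q hP0 hQ0
  have h1 := hP t ht1
  have h2 := hQ (1 - t) ht2
  have h3 : (fun i => e' i + (1 - t) • (e i - e' i)) = fun i => e i + t • (e' i - e i) := by
    funext i
    rw [sub_smul, one_smul, smul_sub, smul_sub]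
    abel
  rw [h3] at h2
  refine ⟨fun i => e i + t • (e' i - e i), fun i => ?_, h1.1, h2.1, h1.2, h2.2⟩
  exact (W i).add_mem (he i) ((W i).smul_mem _ ((W i).sub_mem (he' i) (he i)))

/-- The ideal generated by three finite families. -/
def J3 {a b c : ℕ} (f : Fin a → R) (g : Fin b → R) (h : Fin c → R) : Ideal R :=
  Ideal.span (Set.range f) ⊔ Ideal.span (Set.range g) ⊔ Ideal.span (Set.range h)

/-- the set of the colengths of the cofinite ideals generated by `a` elements of `A`, `b` elements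
of `B` and `c` elements of `V` -/
def m3set (k : Type v) [Field k] [Algebra k R] (A B : Ideal R) (V : Submodule k R) (a b c : ℕ) :
    Set ℕ :=
  {n | ∃ (f : Fin a → R) (g : Fin b → R) (h : Fin c → R), (∀ i, f i ∈ A) ∧ (∀ i, g i ∈ B) ∧
    (∀ i, h i ∈ V) ∧ Cof (J3 f g h) ∧ cl k (J3 f g h) = n}

/-- the smallest such colength -/
noncomputable def m3 (k : Type v) [Field k] [Algebra k R] (A B : Ideal R) (V : Submodule k R)
    (a b c : ℕ) : ℕ :=
  sInf (m3set k A B V a b c)

section m3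

variable {A B : Ideal R} {V : Submodule k R} {a b c : ℕ}

lemma m3_le {f : Fin a → R} {g : Fin b → R} {h : Fin c → R} (hf : ∀ i, f i ∈ A)
    (hg : ∀ i, g i ∈ B) (hh : ∀ i, h i ∈ V) (hc : Cof (J3 f g h)) :
    m3 k A B V a b c ≤ cl k (J3 f g h) :=
  Nat.sInf_le ⟨f, g, h, hf, hg, hh, hc, rfl⟩

lemma m3_spec (hne : (m3set k A B V a b c).Nonempty) :
    ∃ (f : Fin a → R) (g : Fin b → R) (h : Fin c → R), (∀ i, f i ∈ A) ∧ (∀ i, g i ∈ B) ∧
    (∀ i, h i ∈ V) ∧ Cof (J3 f g h) ∧ cl k (J3 f g h) = m3 k A B V a b c :=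
  Nat.sInf_mem hne

lemma m3set_mono {A' B' : Ideal R} (hA : A ≤ A') (hB : B ≤ B') :
    m3set k A B V a b c ⊆ m3set k A' B' V a b c := by
  rintro n ⟨f, g, h, hf, hg, hh, hc, hn⟩
  exact ⟨f, g, h, fun i => hA (hf i), fun i => hB (hg i), hh, hc, hn⟩

lemma m3_mono {A' B' : Ideal R} (hA : A ≤ A') (hB : B ≤ B')
    (hne : (m3set k A B V a b c).Nonempty) : m3 k A' B' V a b c ≤ m3 k A B V a b c :=
  Nat.sInf_le (m3set_mono hA hB (Nat.sInf_mem hne))

lemma m3set_zero_right {B' : Ideal R} : m3set k A B V a 0 c = m3set k A B' V a 0 c := by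
  ext n
  constructor
  · rintro ⟨f, g, h, hf, hg, hh, hc, hn⟩
    exact ⟨f, g, h, hf, fun i => i.elim0, hh, hc, hn⟩
  · rintro ⟨f, g, h, hf, hg, hh, hc, hn⟩
    exact ⟨f, g, h, hf, fun i => i.elim0, hh, hc, hn⟩

lemma m3_zero_right {B' : Ideal R} : m3 k A B V a 0 c = m3 k A B' V a 0 c := by
  unfold m3
  rw [m3set_zero_right]

omit [Algebra k R] [IsLocalRing R] in
lemma J3_swap (f : Fin a → R) (g : Fin b → R) (h : Fin c → R) : J3 f g h = J3 g f h := by
  unfold J3
  rw [sup_comm (Ideal.span (Set.range f))]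

lemma m3set_swap : m3set k A B V a b c = m3set k B A V b a c := by
  ext n
  constructor
  · rintro ⟨f, g, h, hf, hg, hh, hc, hn⟩
    exact ⟨g, f, h, hg, hf, hh, J3_swap f g h ▸ hc, J3_swap f g h ▸ hn⟩
  · rintro ⟨f, g, h, hf, hg, hh, hc, hn⟩
    exact ⟨g, f, h, hg, hf, hh, J3_swap f g h ▸ hc, J3_swap f g h ▸ hn⟩

lemma m3_swap : m3 k A B V a b c = m3 k B A V b a c := by
  unfold m3
  rw [m3set_swap]

omit [Algebra k R] [IsLocalRing R] in
lemma span_cons (u : R) (f : Fin a → R) :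
    Ideal.span (Set.range (Fin.cons u f : Fin (a + 1) → R)) =
      Ideal.span {u} ⊔ Ideal.span (Set.range f) := by
  rw [Fin.range_cons, Ideal.span_insert]

omit [Algebra k R] [IsLocalRing R] in
lemma J3_cons_left (u : R) (f : Fin a → R) (g : Fin b → R) (h : Fin c → R) :
    J3 (Fin.cons u f : Fin (a + 1) → R) g h = J3 f g h ⊔ Ideal.span {u} := by
  unfold J3
  rw [span_cons]
  ac_rfl

omit [Algebra k R] [IsLocalRing R] in
lemma J3_cons_mid (u : R) (f : Fin a → R) (g : Fin b → R) (h : Fin c → R) :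
    J3 f (Fin.cons u g : Fin (b + 1) → R) h = J3 f g h ⊔ Ideal.span {u} := by
  unfold J3
  rw [span_cons]
  ac_rfl

omit [Algebra k R] [IsLocalRing R] in
lemma J3_cons_right (u : R) (f : Fin a → R) (g : Fin b → R) (h : Fin c → R) :
    J3 f g (Fin.cons u h : Fin (c + 1) → R) = J3 f g h ⊔ Ideal.span {u} := by
  unfold J3
  rw [span_cons]
  ac_rfl

omit [Algebra k R] [IsLocalRing R] in
lemma J3_eq_span (f : Fin a → R) (g : Fin b → R) (h : Fin c → R) :
    J3 f g h = Ideal.span (Set.range (Sum.elim f (Sum.elim g h))) := by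
  unfold J3
  rw [Set.Sum.elim_range, Set.Sum.elim_range, Ideal.span_union, Ideal.span_union, sup_assoc]

lemma cl_pow_le (S : Setting k R x) (J : Ideal R) (u : R) (hJ : Cof (J ⊔ Ideal.span {u}))
    (r : ℕ) : Cof (J ⊔ Ideal.span {u ^ r}) ∧
      cl k (J ⊔ Ideal.span {u ^ r}) ≤ r * cl k (J ⊔ Ideal.span {u}) := by
  induction r with
  | zero =>
    have : J ⊔ Ideal.span {u ^ 0} = ⊤ := by
      rw [pow_zero, Ideal.span_singleton_one, sup_top_eq]
    rw [this, cl_top]
    exact ⟨cof_top, Nat.zero_le _⟩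
  | succ r ih =>
    rw [pow_succ]
    have h1 : Cof (J ⊔ Ideal.span {u ^ r * u}) := cof_mul ih.1 hJ
    refine ⟨h1, ?_⟩
    have := S.finite_of_cof h1
    calc cl k (J ⊔ Ideal.span {u ^ r * u}) ≤ cl k (J ⊔ Ideal.span {u ^ r}) +
          cl k (J ⊔ Ideal.span {u}) := cl_mul_le _ _ _
      _ ≤ r * cl k (J ⊔ Ideal.span {u}) + cl k (J ⊔ Ideal.span {u}) :=
          Nat.add_le_add_right ih.2 _
      _ = (r + 1) * cl k (J ⊔ Ideal.span {u}) := by ring

/-- The key inequality. -/
lemma m3_key [Infinite k] (S : Setting k R x) (r : ℕ)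
    (hAB : ∀ v ∈ V, ∀ g ∈ B, g * v ^ r ∈ A) (h1 : (m3set k A B V a (b + 1) c).Nonempty)
    (h2 : (m3set k A B V a b (c + 1)).Nonempty) :
    (m3set k A B V (a + 1) b c).Nonempty ∧
      m3 k A B V (a + 1) b c ≤ m3 k A B V a (b + 1) c + r * m3 k A B V a b (c + 1) := by
  obtain ⟨f, g, h, hf, hg, hh, hc, hn⟩ := m3_spec h1
  obtain ⟨f', g', h', hf', hg', hh', hc', hn'⟩ := m3_spec h2
  obtain ⟨u, g, rfl⟩ : ∃ u g₀, g = Fin.cons u g₀ := ⟨g 0, Fin.tail g, (Fin.cons_self_tail g).symm⟩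
  obtain ⟨v, h', rfl⟩ : ∃ u g₀, h' = Fin.cons u g₀ :=
    ⟨h' 0, Fin.tail h', (Fin.cons_self_tail h').symm⟩
  rw [J3_cons_mid, J3_eq_span] at hc hn
  rw [J3_cons_right, J3_eq_span] at hc' hn'
  have hu : u ∈ B := by simpa using hg 0
  have hv : v ∈ V := by simpa using hh' 0
  obtain ⟨e, he, hc1, hc2, hl1, hl2⟩ := S.interp
    (Sum.elim (fun _ : Fin a => A.restrictScalars k)
      (Sum.elim (fun _ : Fin b => B.restrictScalars k) (fun _ : Fin c => V)))
    (Sum.elim f (Sum.elim g h)) (Sum.elim f' (Sum.elim g' h'))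
    (by
      rintro (i | i | i)
      · exact hf i
      · have := hg i.succ
        rwa [Fin.cons_succ] at this
      · exact hh i)
    (by
      rintro (i | i | i)
      · exact hf' i
      · exact hg' i
      · have := hh' i.succ
        rwa [Fin.cons_succ] at this) u v hc hc'
  have hJ : Ideal.span (Set.range e) = J3 (fun i => e (Sum.inl i))
      (fun i => e (Sum.inr (Sum.inl i))) (fun i => e (Sum.inr (Sum.inr i))) := by
    rw [J3_eq_span]
    congr 2
    funext i
    rcases i with (i | i | i) <;> rfl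
  have hp := cl_pow_le S _ v hc2 r
  have hc3 : Cof (Ideal.span (Set.range e) ⊔ Ideal.span {u * v ^ r}) := cof_mul hc1 hp.1
  have hmem : cl k (J3 (Fin.cons (u * v ^ r) (fun i => e (Sum.inl i)) : Fin (a + 1) → R)
      (fun i => e (Sum.inr (Sum.inl i))) (fun i => e (Sum.inr (Sum.inr i)))) ∈
      m3set k A B V (a + 1) b c := by
    refine ⟨_, _, _, ?_, ?_, ?_, ?_, rfl⟩
    · intro i
      refine Fin.cases ?_ ?_ i
      · exact hAB v hv u hu
      · intro j
        exact he (Sum.inl j)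
    · exact fun j => he (Sum.inr (Sum.inl j))
    · exact fun j => he (Sum.inr (Sum.inr j))
    · rw [J3_cons_left, ← hJ]
      exact hc3
  refine ⟨⟨_, hmem⟩, ?_⟩
  have := S.finite_of_cof hc3
  calc m3 k A B V (a + 1) b c ≤ _ := Nat.sInf_le hmem
    _ = cl k (Ideal.span (Set.range e) ⊔ Ideal.span {u * v ^ r}) := by rw [J3_cons_left, ← hJ]
    _ ≤ cl k (Ideal.span (Set.range e) ⊔ Ideal.span {u}) +
        cl k (Ideal.span (Set.range e) ⊔ Ideal.span {v ^ r}) := cl_mul_le _ _ _
    _ ≤ cl k (Ideal.span (Set.range e) ⊔ Ideal.span {u}) +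
        r * cl k (Ideal.span (Set.range e) ⊔ Ideal.span {v}) := Nat.add_le_add_left hp.2 _
    _ ≤ m3 k A B V a (b + 1) c + r * m3 k A B V a b (c + 1) := by
        rw [← hn, ← hn']
        exact Nat.add_le_add hl1 (Nat.mul_le_mul_left _ hl2)

lemma cl_pow_fam (S : Setting k R x) (s : ℕ) : ∀ (a : ℕ) (f : Fin a → R) (Q : Ideal R),
    Cof (Q ⊔ Ideal.span (Set.range f)) →
    Cof (Q ⊔ Ideal.span (Set.range fun i => f i ^ s)) ∧
      cl k (Q ⊔ Ideal.span (Set.range fun i => f i ^ s)) ≤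
        s ^ a * cl k (Q ⊔ Ideal.span (Set.range f)) := by
  intro a
  induction a with
  | zero =>
    intro f Q h
    have h1 : Set.range (fun i => f i ^ s) = Set.range f := by
      rw [Set.range_eq_empty, Set.range_eq_empty]
    rw [h1]
    exact ⟨h, by simp⟩
  | succ a ih =>
    intro f Q h
    obtain ⟨u, f, rfl⟩ : ∃ u g₀, f = Fin.cons u g₀ :=
      ⟨f 0, Fin.tail f, (Fin.cons_self_tail f).symm⟩
    have h1 : (fun i => (Fin.cons u f : Fin (a + 1) → R) i ^ s) =
        (Fin.cons (u ^ s) (fun i => f i ^ s) : Fin (a + 1) → R) := by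
      funext i
      refine Fin.cases ?_ ?_ i <;> simp
    rw [h1, span_cons, span_cons, ← sup_assoc, ← sup_assoc]
    rw [span_cons, ← sup_assoc] at h
    have h2 : Q ⊔ Ideal.span {u} ⊔ Ideal.span (Set.range f) =
        (Q ⊔ Ideal.span (Set.range f)) ⊔ Ideal.span {u} := by ac_rfl
    have h3 : Q ⊔ Ideal.span {u ^ s} ⊔ Ideal.span (Set.range f) =
        (Q ⊔ Ideal.span (Set.range f)) ⊔ Ideal.span {u ^ s} := by ac_rfl
    rw [h2] at h
    have h4 := cl_pow_le S _ u h s
    have h5 := ih f (Q ⊔ Ideal.span {u ^ s}) (by rw [h3]; exact h4.1)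
    refine ⟨h5.1, h5.2.trans ?_⟩
    rw [h3, h2, pow_succ, mul_assoc]
    exact Nat.mul_le_mul_left _ h4.2

lemma m3_pow {A' B' : Ideal R} (S : Setting k R x) (s : ℕ) (hA : ∀ u ∈ A, u ^ s ∈ A')
    (hB : ∀ u ∈ B, u ^ s ∈ B') (h1 : (m3set k A B V a b c).Nonempty) :
    (m3set k A' B' V a b c).Nonempty ∧
      m3 k A' B' V a b c ≤ s ^ (a + b) * m3 k A B V a b c := by
  obtain ⟨f, g, h, hf, hg, hh, hc, hn⟩ := m3_spec h1
  have e1 : J3 f g h = (Ideal.span (Set.range g) ⊔ Ideal.span (Set.range h)) ⊔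
      Ideal.span (Set.range f) := by unfold J3; ac_rfl
  rw [e1] at hc
  have h2 := cl_pow_fam S s a f _ hc
  have e2 : (Ideal.span (Set.range g) ⊔ Ideal.span (Set.range h)) ⊔
      Ideal.span (Set.range fun i => f i ^ s) =
      (Ideal.span (Set.range fun i => f i ^ s) ⊔ Ideal.span (Set.range h)) ⊔
      Ideal.span (Set.range g) := by ac_rfl
  rw [e2] at h2
  have h3 := cl_pow_fam S s b g _ h2.1
  have e3 : (Ideal.span (Set.range fun i => f i ^ s) ⊔ Ideal.span (Set.range h)) ⊔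
      Ideal.span (Set.range fun i => g i ^ s) = J3 (fun i => f i ^ s) (fun i => g i ^ s) h := by
    unfold J3; ac_rfl
  rw [e3] at h3
  have hmem : cl k (J3 (fun i => f i ^ s) (fun i => g i ^ s) h) ∈ m3set k A' B' V a b c :=
    ⟨_, _, _, fun i => hA _ (hf i), fun i => hB _ (hg i), hh, h3.1, rfl⟩
  refine ⟨⟨_, hmem⟩, (Nat.sInf_le hmem).trans (h3.2.trans ?_)⟩
  rw [add_comm a b, pow_add, mul_assoc]
  refine Nat.mul_le_mul_left _ (h2.2.trans ?_)
  rw [← e1, hn]

lemma m3_top (hne : (m3set k (⊤ : Ideal R) B V (a + 1) b c).Nonempty) :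
    m3 k (⊤ : Ideal R) B V (a + 1) b c = 0 := by
  obtain ⟨f, g, h, hf, hg, hh, hc, hn⟩ := m3_spec hne
  have h1 : J3 (Fin.cons 1 (Fin.tail f) : Fin (a + 1) → R) g h = ⊤ := by
    rw [J3_cons_left, Ideal.span_singleton_one, sup_top_eq]
  have h2 : m3 k (⊤ : Ideal R) B V (a + 1) b c ≤
      cl k (J3 (Fin.cons 1 (Fin.tail f) : Fin (a + 1) → R) g h) :=
    m3_le (fun _ => Submodule.mem_top) hg hh (by rw [h1]; exact cof_top)
  rw [h1, cl_top] at h2
  omega

lemma cof_of_pow_mem (S : Setting k R x) {J : Ideal R} (M : ℕ) (h : ∀ i, x i ^ M ∈ J) :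
    Cof J := by
  have h1 : IsLocalRing.maximalIdeal R ≤ J.radical := by
    rw [S.span_eq, Ideal.span_le]
    rintro _ ⟨i, rfl⟩
    exact ⟨M, h i⟩
  have h2 : (IsLocalRing.maximalIdeal R).FG := by
    have := S.fg_pow 1
    rwa [pow_one] at this
  exact Ideal.exists_pow_le_of_le_radical_of_fg h1 h2

lemma m3set_nonempty (S : Setting k R x) (hA : Cof A) (hB : Cof B) (habc : a + b + c = N) :
    (m3set k A B (Submodule.span k (Set.range x)) a b c).Nonempty := by
  obtain ⟨M₁, hM₁⟩ := hA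
  obtain ⟨M₂, hM₂⟩ := hB
  let M := max M₁ M₂ + 1
  have hx : ∀ i, x i ∈ IsLocalRing.maximalIdeal R := by
    intro i
    rw [S.span_eq]
    exact Ideal.subset_span ⟨i, rfl⟩
  have hxA : ∀ i, x i ^ M ∈ A := fun i =>
    hM₁ (Ideal.pow_le_pow_right (by omega) (Ideal.pow_mem_pow (hx i) M))
  have hxB : ∀ i, x i ^ M ∈ B := fun i =>
    hM₂ (Ideal.pow_le_pow_right (by omega) (Ideal.pow_mem_pow (hx i) M))
  have hc : Cof (J3 (fun i : Fin a => x ⟨i, by omega⟩ ^ M)
      (fun i : Fin b => x ⟨a + i, by omega⟩ ^ M) (fun i : Fin c => x ⟨a + b + i, by omega⟩)) := by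
    refine cof_of_pow_mem S M fun i => ?_
    unfold J3
    by_cases h1 : (i : ℕ) < a
    · refine Ideal.mem_sup_left (Ideal.mem_sup_left (Ideal.subset_span ⟨⟨i, h1⟩, rfl⟩))
    · by_cases h2 : (i : ℕ) < a + b
      · refine Ideal.mem_sup_left (Ideal.mem_sup_right (Ideal.subset_span ⟨⟨i - a, by omega⟩, ?_⟩))
        change x ⟨a + (i - a), _⟩ ^ M = x i ^ M
        congr 2
        apply Fin.ext
        change a + (i - a) = (i : ℕ)
        omega
      · refine Ideal.mem_sup_right ?_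
        have : x i ∈ Ideal.span (Set.range fun j : Fin c => x ⟨a + b + j, by omega⟩) := by
          refine Ideal.subset_span ⟨⟨i - (a + b), by omega⟩, ?_⟩
          change x ⟨a + b + (i - (a + b)), _⟩ = x i
          congr 1
          apply Fin.ext
          change a + b + (i - (a + b)) = (i : ℕ)
          omega
        exact Ideal.pow_mem_of_mem _ this M (by omega)
  exact ⟨_, _, _, _, fun i => hxA _, fun i => hxB _,
    fun i => Submodule.subset_span ⟨_, rfl⟩, hc, rfl⟩

end m3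

section quot

variable {R' : Type u} [CommRing R'] [Algebra k R'] [IsLocalRing R']

omit [IsLocalRing R] [IsLocalRing R'] in
lemma cl_comap (φ : R →ₐ[k] R') (hφ : Function.Surjective φ) (J' : Ideal R') :
    cl k (J'.comap φ) = cl k J' := by
  let ψ : R →ₐ[k] (R' ⧸ J') := (Ideal.Quotient.mkₐ k J').comp φ
  have hψ : Function.Surjective ψ := (Ideal.Quotient.mkₐ_surjective k J').comp hφ
  have hker : LinearMap.ker ψ.toLinearMap = (J'.comap φ).restrictScalars k := by
    ext r
    rw [LinearMap.mem_ker, Submodule.restrictScalars_mem, Ideal.mem_comap]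
    change Ideal.Quotient.mk J' (φ r) = 0 ↔ _
    rw [Ideal.Quotient.eq_zero_iff_mem]
  have e : (R ⧸ J'.comap φ) ≃ₗ[k] (R' ⧸ J') :=
    ((Submodule.Quotient.restrictScalarsEquiv k (J'.comap φ)).symm.trans
      (Submodule.quotEquivOfEq _ _ hker.symm)).trans
      (LinearMap.quotKerEquivOfSurjective ψ.toLinearMap hψ)
  exact LinearEquiv.finrank_eq e

lemma comap_max (φ : R →ₐ[k] R') (hφ : Function.Surjective φ) :
    (IsLocalRing.maximalIdeal R').comap φ = IsLocalRing.maximalIdeal R := by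
  have : ((IsLocalRing.maximalIdeal R').comap φ).IsMaximal :=
    Ideal.comap_isMaximal_of_surjective φ hφ
  exact IsLocalRing.eq_maximalIdeal this

lemma map_max (φ : R →ₐ[k] R') (hφ : Function.Surjective φ) :
    (IsLocalRing.maximalIdeal R).map φ = IsLocalRing.maximalIdeal R' := by
  rw [← comap_max φ hφ, Ideal.map_comap_of_surjective φ hφ]

lemma cof_comap (φ : R →ₐ[k] R') (hφ : Function.Surjective φ) {J' : Ideal R'} (h : Cof J') :
    Cof (J'.comap φ) := by
  obtain ⟨M, hM⟩ := h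
  refine ⟨M, ?_⟩
  rw [← Ideal.map_le_iff_le_comap, Ideal.map_pow, map_max φ hφ]
  exact hM

lemma cof_map (φ : R →ₐ[k] R') (hφ : Function.Surjective φ) {J : Ideal R} (h : Cof J) :
    Cof (J.map φ) := by
  obtain ⟨M, hM⟩ := h
  refine ⟨M, ?_⟩
  rw [← map_max φ hφ, ← Ideal.map_pow]
  exact Ideal.map_mono hM

lemma m3_quot (φ : R →ₐ[k] R') (hφ : Function.Surjective φ) {ℓ : R}
    (hker : RingHom.ker φ = Ideal.span {ℓ}) {A B : Ideal R} {V : Submodule k R} {a b c : ℕ}
    (hℓ : ℓ ∈ V)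
    (hne : (m3set k (A.map φ) (B.map φ) (V.map φ.toLinearMap) a b c).Nonempty) :
    m3 k A B V a b (c + 1) ≤ m3 k (A.map φ) (B.map φ) (V.map φ.toLinearMap) a b c := by
  obtain ⟨f', g', h', hf, hg, hh, hc, hn⟩ := m3_spec hne
  have h1 : ∀ i, ∃ u ∈ A, φ u = f' i := fun i =>
    (Ideal.mem_map_iff_of_surjective φ hφ).mp (hf i)
  have h2 : ∀ i, ∃ u ∈ B, φ u = g' i := fun i =>
    (Ideal.mem_map_iff_of_surjective φ hφ).mp (hg i)
  have h3 : ∀ i, ∃ u ∈ V, φ u = h' i := fun i => hh i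
  choose f hfA hf' using h1
  choose g hgB hg' using h2
  choose h hhV hh' using h3
  have e1 : (J3 f g h).map φ = J3 f' g' h' := by
    unfold J3
    rw [Ideal.map_sup, Ideal.map_sup, Ideal.map_span, Ideal.map_span, Ideal.map_span,
      ← Set.range_comp, ← Set.range_comp, ← Set.range_comp]
    congr 4
    · exact funext hf'
    · exact funext hg'
    · exact funext hh'
  have e2 : J3 f g (Fin.cons ℓ h : Fin (c + 1) → R) = (J3 f' g' h').comap φ := by
    rw [J3_cons_right, ← e1, Ideal.comap_map_of_surjective' φ hφ, hker]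
  have e3 := cof_comap φ hφ hc
  rw [← e2] at e3
  rw [← hn, ← cl_comap φ hφ, ← e2]
  refine m3_le hfA hgB ?_ e3
  intro i
  refine Fin.cases hℓ (fun j => ?_) i
  exact hhV j

end quot

end Pool.Agent.TH206.Lech
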