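import Pool.Agent.TH206.Lech.Basic

set_option autoImplicit false

namespace Pool.Agent.TH206.Lech

open Module

universe u v

section Rank

variable {k : Type v} [Field k]

/-- lower semicontinuity of the rank in an affine family of linear maps -/
lemma rank_param {U W : Type*} [AddCommGroup U] [Module k U] [AddCommGroup W] [Module k W]
    [Module.Finite k U] [Module.Finite k W] {σ : Type*} [Fintype σ]
    (φ₀ : U →ₗ[k] W) (φ : σ → (U →ₗ[k] W)) :
    ∃ P : MvPolynomial σ k, MvPolynomial.eval (fun _ => 0) P ≠ 0 ∧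
      ∀ c : σ → k, MvPolynomial.eval c P ≠ 0 →
        finrank k (LinearMap.range φ₀) ≤ finrank k (LinearMap.range (φ₀ + ∑ s, c s • φ s)) := by
  classical
  obtain ⟨s₀, hs₀⟩ := LinearMap.exists_rightInverse_of_surjective φ₀.rangeRestrict
    (LinearMap.range_rangeRestrict φ₀)
  obtain ⟨p, hp⟩ := LinearMap.exists_leftInverse_of_injective (LinearMap.range φ₀).subtype
    (Submodule.ker_subtype _)
  let V := LinearMap.range φ₀
  let b := Module.finBasis k V
  let ψ : (U →ₗ[k] W) → (V →ₗ[k] V) := fun f => p ∘ₗ f ∘ₗ s₀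
  have hψ0 : ψ φ₀ = LinearMap.id := by
    ext v
    have h1 : φ₀ (s₀ v) = (v : W) := by
      have := LinearMap.congr_fun hs₀ v
      exact congrArg Subtype.val this
    have h2 : p (v : W) = v := LinearMap.congr_fun hp v
    change ((p (φ₀ (s₀ v)) : V) : W) = (v : W)
    rw [h1, h2]
  let Ψ : σ → Matrix (Fin (finrank k V)) (Fin (finrank k V)) k := fun s =>
    LinearMap.toMatrix b b (ψ (φ s))
  let MM : Matrix (Fin (finrank k V)) (Fin (finrank k V)) (MvPolynomial σ k) :=
    1 + ∑ s, (MvPolynomial.X s : MvPolynomial σ k) • (Ψ s).map MvPolynomial.C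
  have hev : ∀ c : σ → k, MvPolynomial.eval c MM.det =
      LinearMap.det (ψ (φ₀ + ∑ s, c s • φ s)) := by
    intro c
    rw [RingHom.map_det, ← LinearMap.det_toMatrix b]
    congr 1
    have h1 : ψ (φ₀ + ∑ s, c s • φ s) = LinearMap.id + ∑ s, c s • ψ (φ s) := by
      rw [← hψ0]
      ext v
      simp only [ψ, LinearMap.comp_apply, LinearMap.add_apply, LinearMap.sum_apply,
        LinearMap.smul_apply, map_add, map_sum, map_smul]
    have h2 : LinearMap.toMatrix b b (LinearMap.id + ∑ s, c s • ψ (φ s)) =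
        1 + ∑ s, c s • Ψ s := by
      rw [map_add, map_sum, LinearMap.toMatrix_id]
      simp only [map_smul, Ψ]
    rw [h1, h2]
    ext i j
    simp only [MM, RingHom.mapMatrix_apply, Matrix.map_apply, Matrix.add_apply, map_add,
      Matrix.sum_apply, map_sum, Matrix.smul_apply, smul_eq_mul, map_mul, MvPolynomial.eval_X,
      MvPolynomial.eval_C]
    congr 1
    rw [Matrix.one_apply, Matrix.one_apply]
    split_ifs <;> simp
  refine ⟨MM.det, ?_, ?_⟩
  · rw [hev]
    have : ψ (φ₀ + ∑ s, (0 : k) • φ s) = LinearMap.id := by simp [hψ0]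
    rw [this]
    simp
  · intro c hc
    rw [hev] at hc
    have hbij : Function.Surjective (ψ (φ₀ + ∑ s, c s • φ s)) := by
      have h1 : IsUnit (LinearMap.det (ψ (φ₀ + ∑ s, c s • φ s))) := isUnit_iff_ne_zero.mpr hc
      have h2 := (LinearEquiv.ofIsUnitDet (v := b) (v' := b)
        (f := ψ (φ₀ + ∑ s, c s • φ s)) (by rwa [LinearMap.det_toMatrix])).surjective
      exact h2
    have hs : Function.Surjective (p ∘ₗ (LinearMap.range (φ₀ + ∑ s, c s • φ s)).subtype) := by
      intro v
      obtain ⟨w, hw⟩ := hbij v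
      exact ⟨⟨(φ₀ + ∑ s, c s • φ s) (s₀ w), LinearMap.mem_range_self _ _⟩, hw⟩
    exact LinearMap.finrank_le_finrank_of_surjective hs

end Rank

variable {k : Type v} [Field k] {R : Type u} [CommRing R] [Algebra k R]

/-- the linear map `b ↦ ∑ e i * b i` on `R ⧸ Q` -/
noncomputable def lin (k : Type v) [Field k] [Algebra k R] {ι : Type*} [Fintype ι] (Q : Ideal R)
    (e : ι → R) : (ι → R ⧸ Q) →ₗ[k] (R ⧸ Q) :=
  ∑ i, (LinearMap.mulLeft k (Ideal.Quotient.mk Q (e i))) ∘ₗ LinearMap.proj i

lemma lin_apply {ι : Type*} [Fintype ι] (Q : Ideal R) (e : ι → R) (b : ι → R ⧸ Q) :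
    lin k Q e b = ∑ i, Ideal.Quotient.mk Q (e i) * b i := by
  simp [lin, LinearMap.sum_apply]

lemma finrank_lin {ι : Type*} [Fintype ι] (Q : Ideal R) (e : ι → R)
    [Module.Finite k (R ⧸ Q)] :
    cl k (Ideal.span (Set.range e) ⊔ Q) + finrank k (LinearMap.range (lin k Q e)) = cl k Q := by
  have hr : LinearMap.range (lin k Q e) =
      ((Ideal.span (Set.range e)).map (Ideal.Quotient.mkₐ k Q)).restrictScalars k := by
    ext y
    simp only [LinearMap.mem_range, Submodule.restrictScalars_mem]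
    rw [Ideal.mem_map_iff_of_surjective _ (Ideal.Quotient.mkₐ_surjective k Q)]
    constructor
    · rintro ⟨b, rfl⟩
      have h1 : ∀ i, ∃ c : R, Ideal.Quotient.mk Q c = b i := fun i =>
        Ideal.Quotient.mk_surjective (b i)
      choose c hc using h1
      refine ⟨∑ i, c i * e i, ?_, ?_⟩
      · exact Ideal.mem_span_range_iff_exists_fun.mpr ⟨c, rfl⟩
      · rw [lin_apply, map_sum]
        refine Finset.sum_congr rfl fun i _ => ?_
        rw [← hc i, map_mul, mul_comm]
        rfl
    · rintro ⟨z, hz, rfl⟩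
      obtain ⟨c, rfl⟩ := Ideal.mem_span_range_iff_exists_fun.mp hz
      refine ⟨fun i => Ideal.Quotient.mk Q (c i), ?_⟩
      rw [lin_apply, map_sum]
      refine Finset.sum_congr rfl fun i _ => ?_
      rw [map_mul, mul_comm]
      rfl
  have h2 := Submodule.finrank_quotient_add_finrank (LinearMap.range (lin k Q e))
  have e2 : ((R ⧸ Q) ⧸ LinearMap.range (lin k Q e)) ≃ₗ[k]
      (R ⧸ (Q ⊔ Ideal.span (Set.range e))) := by
    rw [hr]
    exact (DoubleQuot.quotQuotEquivQuotSupₐ k Q (Ideal.span (Set.range e))).toLinearEquiv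
  rw [LinearEquiv.finrank_eq e2, sup_comm] at h2
  exact h2

variable [IsLocalRing R] {N : ℕ} {x : Fin N → R}

/-- upper semicontinuity of the colength in an affine family of ideals -/
lemma Setting.semi (S : Setting k R x) {ι : Type*} [Fintype ι] {σ : Type*} [Fintype σ]
    (e₀ : ι → R) (e : σ → ι → R) (h : Cof (Ideal.span (Set.range e₀))) :
    ∃ P : MvPolynomial σ k, MvPolynomial.eval (fun _ => 0) P ≠ 0 ∧
      ∀ c : σ → k, MvPolynomial.eval c P ≠ 0 →
        Cof (Ideal.span (Set.range fun i => e₀ i + ∑ s, c s • e s i)) ∧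
        cl k (Ideal.span (Set.range fun i => e₀ i + ∑ s, c s • e s i)) ≤
          cl k (Ideal.span (Set.range e₀)) := by
  obtain ⟨M₀, hM₀⟩ := h
  set δ := cl k (Ideal.span (Set.range e₀)) with hδ
  let M := max M₀ (δ + 1)
  have hM : IsLocalRing.maximalIdeal R ^ M ≤ Ideal.span (Set.range e₀) :=
    (Ideal.pow_le_pow_right (le_max_left _ _)).trans hM₀
  have hfin := S.finite_pow M
  obtain ⟨P, hP0, hP⟩ := rank_param (lin k (IsLocalRing.maximalIdeal R ^ M) e₀)
    (fun s => lin k (IsLocalRing.maximalIdeal R ^ M) (e s))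
  refine ⟨P, hP0, fun c hc => ?_⟩
  have h1 := hP c hc
  have h2 : lin k (IsLocalRing.maximalIdeal R ^ M) e₀ +
      ∑ s, c s • lin k (IsLocalRing.maximalIdeal R ^ M) (e s) =
      lin k (IsLocalRing.maximalIdeal R ^ M) (fun i => e₀ i + ∑ s, c s • e s i) := by
    refine LinearMap.ext fun b => ?_
    have hmk : ∀ (a : k) (r : R), Ideal.Quotient.mk (IsLocalRing.maximalIdeal R ^ M) (a • r) =
        a • Ideal.Quotient.mk (IsLocalRing.maximalIdeal R ^ M) r := fun a r =>
      map_smul (Ideal.Quotient.mkₐ k (IsLocalRing.maximalIdeal R ^ M)) a r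
    simp only [LinearMap.add_apply, LinearMap.sum_apply, LinearMap.smul_apply, lin_apply, map_add,
      map_sum, hmk, add_mul, Finset.sum_mul, Finset.sum_add_distrib, Finset.smul_sum,
      smul_mul_assoc]
    rw [Finset.sum_comm]
  rw [h2] at h1
  have h3 := finrank_lin (k := k) (IsLocalRing.maximalIdeal R ^ M) e₀
  have h4 := finrank_lin (k := k) (IsLocalRing.maximalIdeal R ^ M)
    (fun i => e₀ i + ∑ s, c s • e s i)
  rw [sup_eq_left.mpr hM, ← hδ] at h3
  have h5 : cl k (Ideal.span (Set.range fun i => e₀ i + ∑ s, c s • e s i) ⊔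
      IsLocalRing.maximalIdeal R ^ M) ≤ δ := by omega
  have h6 : IsLocalRing.maximalIdeal R ^ M ≤
      Ideal.span (Set.range fun i => e₀ i + ∑ s, c s • e s i) := by
    refine S.le_of_cl_lt (lt_of_le_of_lt h5 ?_)
    exact lt_of_lt_of_le (Nat.lt_succ_self δ) (le_max_right _ _)
  rw [sup_eq_left.mpr h6] at h5
  exact ⟨⟨M, h6⟩, h5⟩

end Pool.Agent.TH206.Lech
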